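import Pool.Agent.Q89.GN.Rep

/-! The algebra of all norm limits of self-similar functions. -/

namespace Q89.GN

open scoped ENNReal
open Pool.Agent.Y269.GP Filter Topology

noncomputable section

variable {E : Type} [CStarAlgebra E] (M : Amb E)

/-- the self-similar functions of some level -/
def Apre : StarSubalgebra ℂ E where
  carrier := {x | ∃ l, Lev l (M.toC x)}
  mul_mem' := by
    rintro x y ⟨l, hl⟩ ⟨l', hl'⟩
    refine ⟨max l l', ?_⟩
    rw [toC_mul]
    exact (hl.mono (le_max_left _ _)).mul (hl'.mono (le_max_right _ _))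
  add_mem' := by
    rintro x y ⟨l, hl⟩ ⟨l', hl'⟩
    refine ⟨max l l', ?_⟩
    rw [toC_add]
    exact (hl.mono (le_max_left _ _)).add (hl'.mono (le_max_right _ _))
  algebraMap_mem' r := ⟨0, by
    rw [Algebra.algebraMap_eq_smul_one, toC_smul, toC_one]
    exact Lev.smul_one 0 r⟩
  star_mem' := by
    rintro x ⟨l, hl⟩
    refine ⟨l, ?_⟩
    rw [toC_star]
    exact hl.star'

/-- the algebra of all norm limits of self-similar functions -/
def A1 : StarSubalgebra ℂ E := (Apre M).topologicalClosure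

lemma A1_closed : IsClosed (A1 M : Set E) := StarSubalgebra.isClosed_topologicalClosure _

instance : CStarAlgebra ↥(A1 M) := StarSubalgebra.cstarAlgebra (A1 M) (h_closed := A1_closed M)

variable {M} in
lemma mem_A1 {x : E} {l : ℕ} (h : Lev l (M.toC x)) : x ∈ A1 M :=
  StarSubalgebra.le_topologicalClosure _ ⟨l, h⟩

variable {M} in
lemma mem_A1' {T : EE} {l : ℕ} (h : Lev l T) : M.ofC T ∈ A1 M :=
  mem_A1 (l := l) (by rw [toC_ofC]; exact h)

variable {M} in
lemma A1_approx {x : E} (hx : x ∈ A1 M) {ε : ℝ} (hε : 0 < ε) :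
    ∃ (l : ℕ) (y : E), Lev l (M.toC y) ∧ ‖x - y‖ < ε := by
  have h1 : x ∈ closure ((Apre M : StarSubalgebra ℂ E) : Set E) := hx
  obtain ⟨y, ⟨l, hl⟩, hxy⟩ := Metric.mem_closure_iff.mp h1 ε hε
  refine ⟨l, y, hl, ?_⟩
  rwa [← dist_eq_norm]

lemma A0_le : A0 M ≤ A1 M := by
  refine StarSubalgebra.topologicalClosure_mono ?_
  intro x hx
  exact adjoin_lev M hx

/-- the elements which are reduced by the first `2 ^ N` basis vectors at the point `p` -/
def redB (N : ℕ) (p : PT) : StarSubalgebra ℂ ↥(A1 M) where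
  carrier := {z | M.ev p (z : E) * PR N = PR N * M.ev p (z : E)}
  mul_mem' := by
    intro x y hx hy
    have hx' : M.ev p (x : E) * PR N = PR N * M.ev p (x : E) := hx
    have hy' : M.ev p (y : E) * PR N = PR N * M.ev p (y : E) := hy
    show M.ev p ((x : E) * (y : E)) * PR N = PR N * M.ev p ((x : E) * (y : E))
    rw [map_mul, mul_assoc, hy', ← mul_assoc, hx', mul_assoc]
  add_mem' := by
    intro x y hx hy
    have hx' : M.ev p (x : E) * PR N = PR N * M.ev p (x : E) := hx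
    have hy' : M.ev p (y : E) * PR N = PR N * M.ev p (y : E) := hy
    show M.ev p ((x : E) + (y : E)) * PR N = PR N * M.ev p ((x : E) + (y : E))
    rw [map_add, add_mul, mul_add, hx', hy']
  algebraMap_mem' := by
    intro r
    show M.ev p (algebraMap ℂ E r) * PR N = PR N * M.ev p (algebraMap ℂ E r)
    rw [AlgHomClass.commutes]
    exact Algebra.commutes r (PR N)
  star_mem' := by
    intro x hx
    have h1 : M.ev p (x : E) * PR N = PR N * M.ev p (x : E) := hx
    have h2 := congrArg star h1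
    rw [star_mul, star_mul, PR_star] at h2
    show M.ev p (star (x : E)) * PR N = PR N * M.ev p (star (x : E))
    rw [map_star]
    exact h2.symm

lemma ev_cont (p : PT) : Continuous fun z : ↥(A1 M) => M.ev p (z : E) :=
  (AddMonoidHomClass.continuous_of_bound (M.ev p) 1 (fun x => by
    rw [one_mul]; exact ev_norm_le M x p)).comp continuous_subtype_val

lemma redB_closed (N : ℕ) (p : PT) : IsClosed (redB M N p : Set ↥(A1 M)) :=
  isClosed_eq ((ev_cont M p).mul continuous_const) (continuous_const.mul (ev_cont M p))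

/-- the representation of the reduced elements by matrices -/
def repB (N : ℕ) (p : PT) : ↥(redB M N p) →⋆ₐ[ℂ] Matrix (Fin (2 ^ N)) (Fin (2 ^ N)) ℂ where
  toFun z := mat N (M.ev p ((z : ↥(A1 M)) : E))
  map_one' := by
    show mat N (M.ev p (1 : E)) = 1
    rw [map_one]
    ext i j
    show (1 : HH →L[ℂ] HH) (ee j) i = _
    rw [oneA, ee_apply, Matrix.one_apply]
    simp only [Fin.ext_iff]
  map_mul' x y := by
    show mat N (M.ev p (((x : ↥(A1 M)) : E) * ((y : ↥(A1 M)) : E))) = _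
    rw [map_mul]
    exact mat_mul N y.2
  map_zero' := by
    show mat N (M.ev p (0 : E)) = 0
    rw [map_zero]
    rfl
  map_add' x y := by
    show mat N (M.ev p (((x : ↥(A1 M)) : E) + ((y : ↥(A1 M)) : E))) = _
    rw [map_add]
    rfl
  commutes' r := by
    show mat N (M.ev p (algebraMap ℂ E r)) = _
    rw [AlgHomClass.commutes, Algebra.algebraMap_eq_smul_one, Algebra.algebraMap_eq_smul_one]
    ext i j
    show (r • (1 : HH →L[ℂ] HH)) (ee j) i = _
    rw [smul_apply, oneA, lp.coeFn_smul, Pi.smul_apply, ee_apply, Matrix.smul_apply,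
      Matrix.one_apply]
    simp only [Fin.ext_iff]
  map_star' x := by
    show mat N (M.ev p (star ((x : ↥(A1 M)) : E))) = _
    rw [map_star]
    exact mat_star N _

theorem exists_redB (F : Set ↥(A1 M)) (hF : F.Finite) :
    ∃ (N : ℕ) (p : PT), (StarAlgebra.adjoin ℂ F).topologicalClosure ≤ redB M N p := by
  obtain ⟨N, f, -, hf⟩ := hF.fin_param
  let x : ℕ → ↥(A1 M) := fun j => if h : j < N then f ⟨j, h⟩ else 0
  obtain ⟨p, hp⟩ := exists_comm_limit (N := N) (fun j => M.toC (x j : E)) (by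
    intro j ε hε
    obtain ⟨l, y, hl, hy⟩ := A1_approx (x j).2 hε
    exact ⟨l, M.toC y, hl, (norm_toC_sub_le M _ _).trans hy.le⟩)
  refine ⟨N, p, StarSubalgebra.topologicalClosure_minimal ?_ (redB_closed M N p)⟩
  refine StarAlgebra.adjoin_le ?_
  intro y hy
  rw [← hf] at hy
  obtain ⟨⟨j, hj⟩, rfl⟩ := hy
  have := hp j hj
  simp only [x, dif_pos hj] at this
  exact this

theorem exists_repB (F : Set ↥(A1 M)) (hF : F.Finite) :
    ∃ n : ℕ, 0 < n ∧ Nonempty (↥((StarAlgebra.adjoin ℂ F).topologicalClosure) →⋆ₐ[ℂ]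
      Matrix (Fin n) (Fin n) ℂ) := by
  obtain ⟨N, p, h⟩ := exists_redB M F hF
  exact ⟨2 ^ N, by positivity, ⟨(repB M N p).comp (StarSubalgebra.inclusion h)⟩⟩

theorem not_fg (F : Set ↥(A1 M)) (hF : F.Finite) :
    (StarAlgebra.adjoin ℂ F).topologicalClosure ≠ ⊤ := by
  intro htop
  obtain ⟨N, p, h⟩ := exists_redB M F hF
  obtain ⟨x, hx⟩ := not_all_comm M N p
  apply hx
  have h1 : (⟨(x : E), A0_le M x.2⟩ : ↥(A1 M)) ∈ redB M N p := by
    apply h
    rw [htop]
    trivial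
  exact h1

/-! ### simplicity -/

/-- a nonzero ideal is everything -/
theorem ideal_top (I : TwoSidedIdeal ↥(A1 M)) {x : ↥(A1 M)} (hx : x ∈ I) (hx0 : x ≠ 0) :
    (1 : ↥(A1 M)) ∈ I := by
  -- a nonzero entry
  have h1 : ∃ p i j, ent (M.toC (x : E)) i j p ≠ 0 := by
    by_contra hcon
    push Not at hcon
    apply hx0
    apply Subtype.ext
    apply toC_inj M
    ext1 p
    refine op_ext' fun j i => ?_
    have h2 : M.toC ((0 : ↥(A1 M)) : E) = 0 := toC_zero M
    rw [h2]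
    exact hcon p i j
  obtain ⟨p, i, j, hp⟩ := h1
  set δ := ‖ent (M.toC (x : E)) i j p‖ / 3 with hδd
  have hδ : 0 < δ := by
    have : 0 < ‖ent (M.toC (x : E)) i j p‖ := norm_pos_iff.mpr hp
    positivity
  obtain ⟨l, y, hl, hxy⟩ := A1_approx x.2 hδ
  have hxy' : ‖M.toC (x : E) - M.toC y‖ ≤ δ := (norm_toC_sub_le M _ _).trans hxy.le
  have h2 : δ < ‖ent (M.toC y) i j p‖ := by
    have h3 : ent (M.toC (x : E)) i j p = ent (M.toC (x : E) - M.toC y) i j p +
        ent (M.toC y) i j p := by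
      show _ = (M.toC (x : E) p (ee j) i - M.toC y p (ee j) i) + M.toC y p (ee j) i
      rw [sub_add_cancel]
      rfl
    have h4 := norm_ent_le _ i j p hxy'
    have h5 : ‖ent (M.toC (x : E)) i j p‖ ≤ δ + ‖ent (M.toC y) i j p‖ := by
      rw [h3]
      exact (norm_add_le _ _).trans (add_le_add h4 le_rfl)
    have h6 : ‖ent (M.toC (x : E)) i j p‖ = 3 * δ := by rw [hδd]; ring
    linarith
  -- choose a base point
  have hU : IsOpen {p' : PT | δ < ‖ent (M.toC y) i j p'‖} :=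
    isOpen_lt continuous_const (ent_continuous _ i j).norm
  obtain ⟨m, hm, hqm⟩ := q_spec hU ⟨p, h2⟩ (max l (i + j))
  have hlm : l ≤ m := (le_max_left _ _).trans hm
  have hijm : i + j ≤ m := (le_max_right _ _).trans hm
  have hi : i < 2 ^ m := by
    calc i ≤ m := by omega
      _ < _ := Nat.lt_two_pow_self
  have hj : j < 2 ^ m := by
    calc j ≤ m := by omega
      _ < _ := Nat.lt_two_pow_self
  set h0 := ent (M.toC y) i j (q m) with hh0
  have hh : δ < ‖h0‖ := hqm
  have hh0' : h0 ≠ 0 := by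
    intro h
    rw [h, norm_zero] at hh
    linarith
  have h00 : 0 < 2 ^ m := by positivity
  -- elements of the algebra
  set c : ↥(A1 M) := ⟨M.ofC (TC (m + 1) 1 (2 ^ m) (2 ^ m + i)),
    A0_le M (unit_mem M (i := 0) h00 hi)⟩ with hc
  set d : ↥(A1 M) := ⟨M.ofC (TC (m + 1) 1 (2 ^ m + j) (2 ^ m)),
    A0_le M (unit_mem M (j := 0) hj h00)⟩ with hd
  set e : ↥(A1 M) := ⟨M.ofC (TC (m + 1) 1 (2 ^ m) (2 ^ m)),
    A0_le M (unit_mem M (i := 0) (j := 0) h00 h00)⟩ with he
  set y' : ↥(A1 M) := ⟨y, mem_A1 hl⟩ with hy'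
  have k1 : c * y' * d = h0 • e := by
    apply Subtype.ext
    apply toC_inj M
    show M.toC ((c : E) * y * (d : E)) = M.toC (h0 • (e : E))
    rw [toC_mul, toC_mul, toC_smul]
    show M.toC (M.ofC _) * M.toC y * M.toC (M.ofC _) = h0 • M.toC (M.ofC _)
    rw [toC_ofC, toC_ofC, toC_ofC]
    exact corner hl hlm hi hj
  have nc : ‖c‖ ≤ 1 := norm_ofC_le M _ zero_le_one norm_TC_one_le
  have nd : ‖d‖ ≤ 1 := norm_ofC_le M _ zero_le_one norm_TC_one_le
  have ne : ‖e‖ ≤ 1 := norm_ofC_le M _ zero_le_one norm_TC_one_le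
  have k2 : ‖c * x * d - h0 • e‖ ≤ δ := by
    rw [← k1, ← sub_mul, ← mul_sub]
    have hxy'' : ‖x - y'‖ ≤ δ := hxy.le
    calc ‖c * (x - y') * d‖ ≤ ‖c * (x - y')‖ * ‖d‖ := norm_mul_le _ _
      _ ≤ (‖c‖ * ‖x - y'‖) * ‖d‖ := by gcongr; exact norm_mul_le _ _
      _ ≤ (1 * δ) * 1 := by gcongr
      _ = δ := by ring
  set z : ↥(A1 M) := (h0⁻¹ • (1 : ↥(A1 M))) * (c * x * d) with hz
  have hzI : z ∈ I := I.mul_mem_left _ _ (I.mul_mem_right _ _ (I.mul_mem_left _ _ hx))
  have k3 : ‖e - z‖ < 1 := by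
    have e1 : e - z = -(h0⁻¹ • (c * x * d - h0 • e)) := by
      rw [hz, smul_mul_assoc, one_mul, smul_sub, smul_smul, inv_mul_cancel₀ hh0', one_smul, neg_sub]
    rw [e1, norm_neg, norm_smul, norm_inv]
    have hpos : 0 < ‖h0‖ := norm_pos_iff.mpr hh0'
    calc ‖h0‖⁻¹ * ‖c * x * d - h0 • e‖ ≤ ‖h0‖⁻¹ * δ := by gcongr
      _ < ‖h0‖⁻¹ * ‖h0‖ := by gcongr
      _ = 1 := inv_mul_cancel₀ hpos.ne'
  have hb : 2 ^ m < 2 ^ (m + 1) := by rw [pow_succ]; omega
  have hee : e * e = e := by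
    apply Subtype.ext
    show M.ofC _ * M.ofC _ = M.ofC _
    rw [← ofC_mul, TC_mul _ _ _ _ _ hb, mul_one]
  have heI : e ∈ I := proj_mem I hee ne hzI k3
  -- the ideal of `A0`
  let ι : ↥(A0 M) →+* ↥(A1 M) := (StarSubalgebra.inclusion (A0_le M) : ↥(A0 M) →⋆ₐ[ℂ] ↥(A1 M))
  have h9 := one_mem M (I.comap ι) (m := m) (by
    rw [TwoSidedIdeal.mem_comap]
    exact heI)
  rw [TwoSidedIdeal.mem_comap, map_one] at h9
  exact h9

theorem simpleB : IsSimpleRing ↥(A1 M) := by
  have hnt : Nontrivial ↥(A1 M) := by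
    refine ⟨0, 1, fun h => ?_⟩
    have h1 : M.toC ((0 : ↥(A1 M)) : E) = M.toC ((1 : ↥(A1 M)) : E) := by rw [h]
    have h2 : M.toC ((0 : ↥(A1 M)) : E) = 0 := toC_zero M
    have h3 : M.toC ((1 : ↥(A1 M)) : E) = 1 := toC_one M
    rw [h2, h3] at h1
    obtain ⟨p⟩ : Nonempty PT := inferInstance
    have h4 := congrArg (fun T : EE => T p (ee 0) 0) h1
    have h5 : (0 : EE) p (ee 0) 0 = 0 := rfl
    have h6 : (1 : EE) p (ee 0) 0 = ee 0 0 := rfl
    simp only [h5, h6, ee_apply, if_true] at h4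
    exact zero_ne_one h4
  apply IsSimpleRing.of_eq_bot_or_eq_top
  intro I
  by_cases hI : ∀ x ∈ I, x = 0
  · left
    exact le_bot_iff.mp fun x hx => by
      rw [hI x hx]
      exact TwoSidedIdeal.zero_mem _
  · right
    push Not at hI
    obtain ⟨x, hx, hx0⟩ := hI
    have h1 := ideal_top M I hx hx0
    refine top_le_iff.mp fun y _ => ?_
    have := I.mul_mem_left y 1 h1
    rwa [mul_one] at this

end

end Q89.GN
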