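import Pool.Agent.Q89.GN.Fl
import Pool.Agent.Helper234.Nuc.A

/-! A criterion for nuclearity. -/

namespace Q89.GN

open scoped ENNReal InnerProductSpace Matrix.Norms.L2Operator ComplexOrder
open Pool.Agent.Helper234.Nuc

noncomputable section

theorem gram_psd {ι E : Type} [Fintype ι] [NormedAddCommGroup E] [InnerProductSpace ℂ E]
    (v : ι → E) : (Matrix.of (fun p q : ι => ⟪v p, v q⟫_ℂ)).PosSemidef :=
  Matrix.posSemidef_gram ℂ v

theorem gram_psd2 {ι E : Type} [Fintype ι] [NormedAddCommGroup E] [InnerProductSpace ℂ E]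
    (v : ι → E) (M : Matrix ι ι ℂ) (h : ∀ p q, M p q = ⟪v p, v q⟫_ℂ) : M.PosSemidef := by
  have e : M = Matrix.of (fun p q : ι => ⟪v p, v q⟫_ℂ) := by ext p q; rw [h]; rfl
  rw [e]
  exact gram_psd v

/-- a criterion for nuclearity -/
theorem nuc_of {A : Type} [NonUnitalCStarAlgebra A]
    (h : ∀ (F : Finset A) (ε : ℝ), 0 < ε → ∃ (ι Q : Type) (_ : Fintype ι) (_ : DecidableEq ι)
      (_ : Fintype Q) (φ : A →ₗ[ℂ] Matrix ι ι ℂ) (K : Q → ι → A),
      (∀ (m : ℕ) (x : Fin m → A),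
        (Matrix.of (fun p q : Fin m × ι => φ (star (x p.1) * x q.1) p.2 q.2)).PosSemidef) ∧
      (∀ a : A, ‖a‖ ≤ 1 → (1 - star (φ a) * φ a).PosSemidef) ∧
      ‖kr K 1‖ ≤ 1 ∧ ∀ a ∈ F, ‖kr K (φ a) - a‖ < ε) : IsNuclear A := by
  classical
  intro F ε hε
  obtain ⟨ι, Q, i1, i2, i3, φ, K, h1, h2, hK, hF⟩ := h F ε hε
  let e : ι ≃ Fin (Fintype.card ι) := Fintype.equivFin ι
  let n := Fintype.card ι
  let Re : Matrix (Fin n) (Fin n) ℂ →ₗ[ℂ] Matrix ι ι ℂ :=
    (Matrix.reindexLinearEquiv ℂ ℂ e.symm e.symm).toLinearMap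
  let Φ : A →ₗ[ℂ] Matrix (Fin n) (Fin n) ℂ :=
    (Matrix.reindexLinearEquiv ℂ ℂ e e).toLinearMap ∘ₗ φ
  have hΦ : ∀ a p q, Φ a p q = φ a (e.symm p) (e.symm q) := fun _ _ _ => rfl
  have hRe : ∀ M p q, Re M p q = M (e p) (e q) := fun _ _ _ => rfl
  have hRemul : ∀ M N, Re (star M * N) = star (Re M) * Re N := by
    intro M N
    ext p q
    rw [hRe, Matrix.mul_apply, Matrix.mul_apply]
    refine (Fintype.sum_equiv e _ _ (fun w => ?_)).symm
    rfl
  have hReone : Re 1 = 1 := by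
    ext p q
    rw [hRe, Matrix.one_apply, Matrix.one_apply]
    simp
  have hRePSD : ∀ M, M.PosSemidef → (Re M).PosSemidef := by
    intro M hM
    exact hM.submatrix e
  refine ⟨n, Φ, (kr K) ∘ₗ Re, ?_, ?_, ?_, ?_, ?_⟩
  · intro m x
    have := (h1 m x).submatrix (fun p : Fin m × Fin n => (p.1, e.symm p.2))
    exact this
  · intro m Y y
    obtain ⟨s, hs⟩ := kr_cp K m (fun i => Re (Y i)) y
    refine ⟨s, ?_⟩
    rw [← hs]
    refine Finset.sum_congr rfl fun i _ => Finset.sum_congr rfl fun j _ => ?_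
    rw [LinearMap.comp_apply, hRemul]
  · intro a ha
    have h3 := (h2 a ha).submatrix e.symm
    have : (1 - star (φ a) * φ a).submatrix e.symm e.symm = 1 - star (Φ a) * Φ a := by
      ext p q
      rw [Matrix.submatrix_apply, Matrix.sub_apply, Matrix.sub_apply, Matrix.mul_apply,
        Matrix.mul_apply, Matrix.one_apply, Matrix.one_apply]
      congr 1
      · simp
      · refine (Fintype.sum_equiv e _ _ (fun w => ?_))
        rw [Matrix.star_apply, Matrix.star_apply, hΦ, hΦ, e.symm_apply_apply]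
    rw [← this]; exact h3
  · intro M hM
    rw [LinearMap.comp_apply]
    apply kr_contr K hK
    have := hRePSD _ hM
    rwa [map_sub, hReone, hRemul] at this
  · intro a ha
    have e1 : ((kr K) ∘ₗ Re) (Φ a) = kr K (φ a) := by
      rw [LinearMap.comp_apply]
      congr 1
      ext p q
      rw [hRe, hΦ, e.symm_apply_apply, e.symm_apply_apply]
    rw [e1]
    exact hF a ha

/-- contractivity of the composition -/
theorem kr_phi_le {A : Type} [NonUnitalCStarAlgebra A] {ι Q : Type} [Fintype ι] [DecidableEq ι]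
    [Fintype Q] (φ : A →ₗ[ℂ] Matrix ι ι ℂ) (K : Q → ι → A)
    (h2 : ∀ a : A, ‖a‖ ≤ 1 → (1 - star (φ a) * φ a).PosSemidef) (hK : ‖kr K 1‖ ≤ 1) (x : A) :
    ‖kr K (φ x)‖ ≤ ‖x‖ := by
  by_cases hx : x = 0
  · simp [hx]
  have hx' : 0 < ‖x‖ := norm_pos_iff.mpr hx
  have h4 : ‖kr K (φ (((‖x‖ : ℂ)⁻¹) • x))‖ ≤ 1 := by
    apply kr_contr K hK
    apply h2
    rw [norm_smul, norm_inv, Complex.norm_real, norm_norm, inv_mul_cancel₀ hx'.ne']
  rw [map_smul, map_smul, norm_smul, norm_inv, Complex.norm_real, norm_norm] at h4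
  rwa [inv_mul_le_iff₀ hx', mul_one] at h4

open Pool.Agent.Y269.GP

/-- square roots -/
theorem exists_root {B : Type*} [CStarAlgebra B] (a : B) (ha : ‖a‖ ≤ 1) :
    ∃ R : B, 1 - star a * a = star R * R := by
  let _ : PartialOrder B := CStarAlgebra.spectralOrder B
  have : StarOrderedRing B := CStarAlgebra.spectralOrderedRing B
  have a1 : star a * a ≤ algebraMap ℝ B (‖a‖ ^ 2) := by
    have := (IsSelfAdjoint.star_mul_self a).le_algebraMap_norm_self
    rwa [CStarRing.norm_star_mul_self, ← sq] at this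
  have a2 : algebraMap ℝ B (‖a‖ ^ 2) ≤ 1 := by
    have h1 : ‖a‖ ^ 2 ≤ 1 := by nlinarith [norm_nonneg a]
    have h2 : algebraMap ℝ B (‖a‖ ^ 2) ≤ algebraMap ℝ B 1 := algebraMap_mono B h1
    rwa [map_one] at h2
  exact CStarAlgebra.nonneg_iff_eq_star_mul_self.1 (sub_nonneg.2 (a1.trans a2))

lemma PR_exp (N : ℕ) (f : HH) : PR N f = ∑ k : Fin (2 ^ N), f k • ee (k : ℕ) := by
  refine lp.ext (funext fun i => ?_)
  have e : (∑ k : Fin (2 ^ N), f k • ee (k : ℕ) : HH) i
      = ∑ k : Fin (2 ^ N), (f k • ee (k : ℕ) : HH) i := by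
    rw [lp.coeFn_sum, Finset.sum_apply]
  rw [PR_apply, e]
  by_cases hi : i < 2 ^ N
  · rw [if_pos hi, one_mul, Finset.sum_eq_single (⟨i, hi⟩ : Fin (2 ^ N))]
    · rw [lp.coeFn_smul, Pi.smul_apply, ee_apply, if_pos rfl, smul_eq_mul, mul_one]
    · intro b _ hb
      rw [lp.coeFn_smul, Pi.smul_apply, ee_apply, if_neg, smul_zero]
      intro h
      exact hb (Fin.ext h.symm)
    · intro h
      exact absurd (Finset.mem_univ _) h
  · rw [if_neg hi, zero_mul]
    symm
    apply Finset.sum_eq_zero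
    intro b _
    rw [lp.coeFn_smul, Pi.smul_apply, ee_apply, if_neg, smul_zero]
    intro h
    exact hi (h ▸ b.2)

lemma norm_PR_le (N : ℕ) : ‖PR N‖ ≤ 1 := norm_wp_le (PR_good N) fun _ => norm_ite_le _

lemma PR_idem (N : ℕ) : PR N * PR N = PR N := by
  refine op_ext fun f i => ?_
  rw [mulA, PR_apply, PR_apply]
  split_ifs <;> simp

lemma inner_star_mulA (A B : HH →L[ℂ] HH) (f g : HH) : ⟪f, (star A * B) g⟫_ℂ = ⟪A f, B g⟫_ℂ := by
  rw [mulA, ContinuousLinearMap.star_eq_adjoint, ContinuousLinearMap.adjoint_inner_right]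

lemma inner_PR (N : ℕ) (f g : HH) :
    ⟪PR N f, PR N g⟫_ℂ = ∑ k : Fin (2 ^ N), (starRingEnd ℂ) (f k) * g k := by
  have h1 : ⟪PR N f, PR N g⟫_ℂ = ⟪f, PR N g⟫_ℂ := by
    rw [← inner_star_mulA, PR_star, PR_idem]
  rw [h1, PR_exp, inner_sum]
  refine Finset.sum_congr rfl fun k _ => ?_
  rw [inner_smul_right, ← inner_conj_symm, inner_ee, mul_comm]

lemma inner_ee_ee (a b : ℕ) : ⟪ee a, ee b⟫_ℂ = if a = b then 1 else 0 := by
  rw [inner_ee, ee_apply]

section blocks

variable {J : Type} [Fintype J] [DecidableEq J] (m : ℕ) (T : J → HH →L[ℂ] HH)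

/-- the block diagonal compression -/
def cmp : Matrix (J × Fin (2 ^ m)) (J × Fin (2 ^ m)) ℂ :=
  Matrix.of fun u v => if u.1 = v.1 then T u.1 (ee v.2) u.2 else 0

lemma cmp_apply (u v : J × Fin (2 ^ m)) :
    cmp m T u v = if u.1 = v.1 then T u.1 (ee v.2) u.2 else 0 := rfl

lemma pl_inner (v w : PiLp 2 (fun _ : J => HH)) : ⟪v, w⟫_ℂ = ∑ j, ⟪v j, w j⟫_ℂ := PiLp.inner_apply v w

/-- the vector with one component -/
def sg (j : J) (v : HH) : PiLp 2 (fun _ : J => HH) := WithLp.toLp 2 (Pi.single j v)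

lemma sg_inner (j j' : J) (v w : HH) :
    ⟪sg j v, sg j' w⟫_ℂ = if j = j' then ⟪v, w⟫_ℂ else 0 := by
  rw [pl_inner]
  have e : ∀ (i : J) (x : HH) (k : J), (sg i x) k = if k = i then x else 0 := by
    intro i x k
    show (Pi.single i x : J → HH) k = _
    rw [Pi.single_apply]
  simp only [e]
  rw [Finset.sum_eq_single j]
  · rw [if_pos rfl]
    by_cases h : j = j'
    · rw [if_pos h, if_pos h]
    · rw [if_neg h, if_neg h, inner_zero_right]
  · intro k _ hk
    rw [if_neg hk, inner_zero_left]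
  · intro h; exact absurd (Finset.mem_univ _) h

/-- complete positivity -/
lemma cmp_cp {n : ℕ} (X : Fin n → J → HH →L[ℂ] HH) :
    (Matrix.of (fun p q : Fin n × (J × Fin (2 ^ m)) =>
      cmp m (fun j => star (X p.1 j) * X q.1 j) p.2 q.2)).PosSemidef := by
  refine gram_psd2 (fun p : Fin n × (J × Fin (2 ^ m)) =>
    sg p.2.1 (X p.1 p.2.1 (ee p.2.2))) _ fun p q => ?_
  rw [sg_inner, Matrix.of_apply, cmp_apply]
  by_cases hpq : p.2.1 = q.2.1
  · rw [if_pos hpq, if_pos hpq, ← inner_ee, inner_star_mulA, ← hpq]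
  · rw [if_neg hpq, if_neg hpq]

/-- contractivity -/
lemma cmp_contr (hT : ∀ j, ‖T j‖ ≤ 1) : (1 - star (cmp m T) * cmp m T).PosSemidef := by
  have h1 : ∀ j, ∃ R : HH →L[ℂ] HH, 1 - star (PR m * T j) * (PR m * T j) = star R * R := by
    intro j
    refine exists_root _ ?_
    calc ‖PR m * T j‖ ≤ ‖PR m‖ * ‖T j‖ := norm_mul_le _ _
      _ ≤ 1 * 1 := mul_le_mul (norm_PR_le m) (hT j) (norm_nonneg _) zero_le_one
      _ = 1 := one_mul 1
  choose R hR using h1
  refine gram_psd2 (fun p : J × Fin (2 ^ m) => sg p.1 (R p.1 (ee p.2))) _ fun p q => ?_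
  rw [sg_inner, Matrix.sub_apply, Matrix.mul_apply, Matrix.one_apply]
  obtain ⟨j, a⟩ := p
  obtain ⟨j', b⟩ := q
  simp only [Prod.mk.injEq]
  have hsum : ∑ x : J × Fin (2 ^ m), star (cmp m T) (j, a) x * cmp m T x (j', b) =
      if j = j' then ∑ c : Fin (2 ^ m), (starRingEnd ℂ) (T j (ee a) c) * T j (ee b) c else 0 := by
    rw [Fintype.sum_prod_type, Finset.sum_eq_single j]
    · by_cases h : j = j'
      · subst h
        rw [if_pos rfl]
        refine Finset.sum_congr rfl fun c _ => ?_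
        rw [Matrix.star_apply, cmp_apply, cmp_apply, if_pos rfl, if_pos rfl]
        rfl
      · rw [if_neg h]
        refine Finset.sum_eq_zero fun c _ => ?_
        rw [cmp_apply m T (j, c) (j', b), if_neg h, mul_zero]
    · intro k _ hk
      refine Finset.sum_eq_zero fun c _ => ?_
      rw [Matrix.star_apply, cmp_apply, if_neg hk, star_zero, zero_mul]
    · intro h; exact absurd (Finset.mem_univ _) h
  rw [hsum]
  by_cases h : j = j'
  · subst h
    rw [if_pos rfl, if_pos rfl]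
    rw [← inner_star_mulA, ← hR j]
    have e2 : ⟪ee a, (1 - star (PR m * T j) * (PR m * T j)) (ee b)⟫_ℂ =
        ⟪ee a, ee b⟫_ℂ - ⟪PR m (T j (ee a)), PR m (T j (ee b))⟫_ℂ := by
      rw [sub_apply, inner_sub_right, one_apply_eq_self, inner_star_mulA, mulA, mulA]
    rw [e2, inner_PR, inner_ee_ee]
    simp only [true_and, Fin.ext_iff]
  · rw [if_neg h, if_neg h, if_neg (fun h2 => h h2.1), sub_zero]

end blocks

end

end Q89.GN
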