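import Pool.Agent.Q89.GN.Big

/-! Decomposition of self-similar functions, separability. -/

namespace Q89.GN

open scoped ENNReal
open Pool.Agent.Y269.GP Pool.Agent.Helper133.BT Pool.Agent.Helper133.BU Filter Topology

noncomputable section

instance : T2Space PT := inferInstanceAs (T2Space ↥(PP nn))

instance : SecondCountableTopology C(PT, ℂ) := inferInstance

/-- entries as continuous functions -/
def en (T : EE) (a b : ℕ) : C(PT, ℂ) := ⟨ent T a b, ent_continuous T a b⟩

lemma en_apply (T : EE) (a b : ℕ) (p : PT) : en T a b p = T p (ee b) a := rfl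

lemma W_cst (L : ℕ) (c : ℂ) (i : ℕ) (p : PT) : W L (fun _ => c) i p = c := by
  induction i using Nat.strong_induction_on generalizing p with
  | _ i ih =>
    by_cases hc : i = 0
    · subst hc; rw [Pool.Agent.Y269.GP.W_zero]
    · rw [W_pos L _ hc]
      have : 0 < 2 ^ Nat.log 2 i := by positivity
      exact ih _ (by omega) _

lemma TC_add (L : ℕ) (φ ψ : C(PT, ℂ)) (a b : ℕ) :
    TC L (φ + ψ) a b = TC L φ a b + TC L ψ a b := by
  have h := TC_sum (Finset.univ : Finset Bool) L (fun t => if t then φ else ψ) a b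
  simp only [Fintype.univ_bool, Finset.sum_insert (show true ∉ ({false} : Finset Bool) by simp),
    Finset.sum_singleton] at h
  simpa using h.symm

lemma TC_smul (L : ℕ) (c : ℂ) (φ : C(PT, ℂ)) (a b : ℕ) :
    TC L (c • φ) a b = c • TC L φ a b := by
  ext1 p
  refine op_ext fun f i => ?_
  have e0 : (c • TC L φ a b) p f i = c * TC L φ a b p f i := rfl
  rw [TC_apply, e0, TC_apply, ← mul_assoc]
  congr 1
  unfold wt
  by_cases h : i % 2 ^ L = a
  · rw [if_pos h, if_pos h]
    have e : (⇑(c • φ) : PT → ℂ) = fun p => (fun _ => c) p * φ p := rfl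
    rw [e, W_mul, W_cst]
  · rw [if_neg h, if_neg h, mul_zero]

/-- as a linear map -/
def TCl (L a b : ℕ) : C(PT, ℂ) →ₗ[ℂ] EE where
  toFun φ := TC L φ a b
  map_add' φ ψ := TC_add L φ ψ a b
  map_smul' c φ := TC_smul L c φ a b

lemma norm_TC_le (L : ℕ) (φ : C(PT, ℂ)) (a b : ℕ) {C : ℝ} (hC : ∀ p, ‖φ p‖ ≤ C) :
    ‖TC L φ a b‖ ≤ C := by
  have hC0 : 0 ≤ C := (norm_nonneg _).trans (hC (Classical.arbitrary PT))
  rw [ContinuousMap.norm_le _ hC0]
  intro p
  refine norm_wp_le (TT_good (bdd φ) a b p) ?_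
  intro i
  unfold wt
  split_ifs
  · exact norm_W_le L hC _ _
  · simpa using hC0

lemma gg_ee (k j : ℕ) : gg k (ee j) = sk k j • ee j := by
  refine lp.ext (funext fun i => ?_)
  rw [gg_apply, lp.coeFn_smul, Pi.smul_apply, ee_apply, smul_eq_mul]
  by_cases hk : i = j
  · subst hk; rfl
  · rw [if_neg hk]; simp

lemma sk_sq (k a : ℕ) : sk k a * sk k a = 1 := by unfold sk; split_ifs <;> simp

/-- parity of the entries -/
lemma en_flip {l : ℕ} {T : EE} (h : Lev l T) (a b k : ℕ) (p : PT) :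
    en T a b (flip k p) = sk k a * sk k b * en T a b p := by
  have h1 := congrArg (fun A : HH →L[ℂ] HH => A (ee b) a) (h.eqv k p)
  simp only [mulA] at h1
  rw [gg_ee, map_smul, lp.coeFn_smul, Pi.smul_apply, gg_apply, smul_eq_mul] at h1
  rw [en_apply, en_apply]
  have h2 := sk_sq k b
  linear_combination (sk k b) * h1 + (- T (flip k p) (ee b) a) * h2

lemma TC_lev' {l : ℕ} {T : EE} (h : Lev l T) (a : ℕ) {b : ℕ} (hb : b < 2 ^ l) :
    Lev l (TC l (en T a b) a b) := TC_lev hb fun k p => en_flip h a b k p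

lemma Lev_sum {ι : Type*} {l : ℕ} (s : Finset ι) (f : ι → EE) (h : ∀ i ∈ s, Lev l (f i)) :
    Lev l (∑ i ∈ s, f i) := by
  classical
  induction s using Finset.induction_on with
  | empty => exact Lev.zero l
  | insert i s hi ih =>
    rw [Finset.sum_insert hi]
    exact (h i (Finset.mem_insert_self _ _)).add (ih fun j hj => h j (Finset.mem_insert_of_mem hj))

/-- the sum of the entries -/
def rec (l : ℕ) (g : ℕ → ℕ → C(PT, ℂ)) : EE :=
  ∑ a ∈ Finset.range (2 ^ l), ∑ b ∈ Finset.range (2 ^ l), TC l (g a b) a b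

lemma rec_ee {l : ℕ} (g : ℕ → ℕ → C(PT, ℂ)) (p : PT) {i j : ℕ} (hi : i < 2 ^ l) (hj : j < 2 ^ l) :
    rec l g p (ee j) i = g i j p := by
  have h1 : rec l g p (ee j) i = ∑ a ∈ Finset.range (2 ^ l), ∑ b ∈ Finset.range (2 ^ l),
      TC l (g a b) a b p (ee j) i := by
    unfold rec
    rw [ContinuousMap.coe_sum, Finset.sum_apply, _root_.sum_apply, lp.coeFn_sum, Finset.sum_apply]
    refine Finset.sum_congr rfl fun a _ => ?_
    rw [ContinuousMap.coe_sum, Finset.sum_apply, _root_.sum_apply, lp.coeFn_sum, Finset.sum_apply]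
  rw [h1, Finset.sum_eq_single i]
  · rw [Finset.sum_eq_single j]
    · rw [TC_ee _ _ hi, if_pos ⟨rfl, rfl⟩]
    · intro b _ hb
      rw [TC_ee _ _ hi, if_neg (fun h => hb h.2.symm)]
    · intro h; exact absurd (Finset.mem_range.2 hj) h
  · intro a _ ha
    refine Finset.sum_eq_zero fun b _ => ?_
    rw [TC_ee _ _ hi, if_neg (fun h => ha h.1.symm)]
  · intro h; exact absurd (Finset.mem_range.2 hi) h

lemma rec_sub (l : ℕ) (g h : ℕ → ℕ → C(PT, ℂ)) :
    rec l g - rec l h = rec l (fun a b => g a b - h a b) := by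
  unfold rec
  rw [← Finset.sum_sub_distrib]
  refine Finset.sum_congr rfl fun a _ => ?_
  rw [← Finset.sum_sub_distrib]
  refine Finset.sum_congr rfl fun b _ => ?_
  exact ((TCl l a b).map_sub _ _).symm

lemma norm_rec_le (l : ℕ) (g : ℕ → ℕ → C(PT, ℂ)) {C : ℝ}
    (hC : ∀ a < 2 ^ l, ∀ b < 2 ^ l, ∀ p, ‖g a b p‖ ≤ C) : ‖rec l g‖ ≤ 2 ^ l * (2 ^ l * C) := by
  have hC0 : 0 ≤ C := (norm_nonneg _).trans (hC 0 (by positivity) 0 (by positivity)
    (Classical.arbitrary PT))
  rw [ContinuousMap.norm_le _ (by positivity)]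
  intro p
  have h1 : rec l g p = ∑ a ∈ Finset.range (2 ^ l), ∑ b ∈ Finset.range (2 ^ l),
      TC l (g a b) a b p := by
    unfold rec
    rw [ContinuousMap.coe_sum, Finset.sum_apply]
    refine Finset.sum_congr rfl fun a _ => ?_
    rw [ContinuousMap.coe_sum, Finset.sum_apply]
  rw [h1]
  calc _ ≤ ∑ a ∈ Finset.range (2 ^ l), ‖∑ b ∈ Finset.range (2 ^ l), TC l (g a b) a b p‖ :=
        norm_sum_le _ _
    _ ≤ ∑ a ∈ Finset.range (2 ^ l), ∑ b ∈ Finset.range (2 ^ l), C := by
        refine Finset.sum_le_sum fun a ha => (norm_sum_le _ _).trans (Finset.sum_le_sum fun b hb => ?_)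
        exact ((TC l (g a b) a b).norm_coe_le_norm p).trans
          (norm_TC_le l _ a b (hC a (Finset.mem_range.1 ha) b (Finset.mem_range.1 hb)))
    _ = _ := by
        rw [Finset.sum_const, Finset.sum_const, Finset.card_range, nsmul_eq_mul, nsmul_eq_mul]
        push_cast
        ring

lemma rec_fin (l : ℕ) (g : ℕ → ℕ → C(PT, ℂ)) :
    rec l g = ∑ a : Fin (2 ^ l), ∑ b : Fin (2 ^ l), TCl l a b (g a b) := by
  unfold rec
  rw [Finset.sum_range]
  refine Finset.sum_congr rfl fun a _ => ?_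
  rw [Finset.sum_range]
  rfl

/-- decomposition of a self-similar function -/
lemma eq_rec {l : ℕ} {T : EE} (h : Lev l T) : T = rec l (en T) := by
  have h1 : Lev l (rec l (en T)) := by
    unfold rec
    refine Lev_sum _ _ fun a _ => Lev_sum _ _ fun b hb => ?_
    exact TC_lev' h a (Finset.mem_range.1 hb)
  have h2 : Lev l (T + (-1 : ℂ) • rec l (en T)) := h.add (h1.smul _)
  have h3 := h2.eq_zero (by
    intro p i j hi hj
    have e : (T + (-1 : ℂ) • rec l (en T)) p (ee j) i = T p (ee j) i +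
      (-1) * (rec l (en T) p (ee j) i) := rfl
    rw [e, rec_ee _ _ hi hj, en_apply]
    ring)
  ext1 p
  have h9 : T p + (-1 : ℂ) • (rec l (en T) p) = 0 := congrArg (fun T : EE => T p) h3
  rw [neg_smul, one_smul, ← sub_eq_add_neg] at h9
  exact sub_eq_zero.1 h9

lemma TCl_continuous (l a b : ℕ) : Continuous (TCl l a b) :=
  AddMonoidHomClass.continuous_of_bound (TCl l a b) 1 fun φ => by
    rw [one_mul]
    exact norm_TC_le l φ a b (fun p => φ.norm_coe_le_norm p)

section Ambient

variable {E : Type} [CStarAlgebra E] (M : Amb E)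

lemma ofC_toC (x : E) : M.ofC (M.toC x) = x := toC_inj M (toC_ofC M _)

/-- as a linear map -/
def ofCl : EE →ₗ[ℂ] E where
  toFun := M.ofC
  map_add' S T := by
    apply toC_inj M
    rw [toC_add, toC_ofC, toC_ofC, toC_ofC]
  map_smul' c T := by
    apply toC_inj M
    rw [toC_ofC, RingHom.id_apply, toC_smul, toC_ofC]

lemma ofCl_continuous : Continuous (ofCl M) :=
  AddMonoidHomClass.continuous_of_bound (ofCl M) 1 fun T => by
    rw [one_mul]
    exact norm_ofC_le M T (norm_nonneg _) le_rfl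

lemma sepB : TopologicalSpace.SeparableSpace ↥(A1 M) := by
  have h1 : TopologicalSpace.IsSeparable (A1 M : Set E) := by
    have hcl : (A1 M : Set E) = closure ((Apre M : StarSubalgebra ℂ E) : Set E) := rfl
    rw [hcl]
    apply TopologicalSpace.IsSeparable.closure
    have hsub : ((Apre M : StarSubalgebra ℂ E) : Set E) ⊆ ⋃ l : ℕ,
        Set.range (fun g : Fin (2 ^ l) → Fin (2 ^ l) → C(PT, ℂ) =>
          ofCl M (∑ a : Fin (2 ^ l), ∑ b : Fin (2 ^ l), TCl l a b (g a b))) := by
      rintro x ⟨l, hl⟩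
      refine Set.mem_iUnion.2 ⟨l, fun a b => en (M.toC x) a b, ?_⟩
      have h2 : ∑ a : Fin (2 ^ l), ∑ b : Fin (2 ^ l), TCl l a b (en (M.toC x) a b) =
          M.toC x := by
        rw [← rec_fin l (en (M.toC x)), ← eq_rec hl]
      simp only [h2]
      exact ofC_toC M x
    refine TopologicalSpace.IsSeparable.mono ?_ hsub
    refine TopologicalSpace.IsSeparable.iUnion fun l => ?_
    refine TopologicalSpace.isSeparable_range ?_
    refine (ofCl_continuous M).comp ?_
    refine continuous_finsetSum _ fun a _ => continuous_finsetSum _ fun b _ => ?_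
    exact (TCl_continuous l a b).comp ((continuous_apply b).comp (continuous_apply a))
  exact h1.separableSpace

end Ambient

end

end Q89.GN
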