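import Pool.Agent.Q89.GN.Dec

/-! Sign changes of several blocks, and partitions of unity. -/

namespace Q89.GN

open scoped ENNReal
open Pool.Agent.Y269.GP Pool.Agent.Helper133.BT Pool.Agent.Helper133.BU Filter Topology

noncomputable section

lemma PT_ext {p p' : PT} (h : ∀ i c, p.val i c = p'.val i c) : p = p' := by
  apply Subtype.ext
  funext i c
  exact h i c

/-- the sign change of the blocks in `S` -/
def fl (S : Finset ℕ) (p : PT) : PT :=
  PT.mk (fun i c => if i ∈ S then - p.val i c else p.val i c) (by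
    intro i
    have h := p.prop i
    show ∑ b, |_| = 1
    have h' : ∑ b, |p.val i b| = 1 := h
    rw [← h']
    refine Finset.sum_congr rfl fun b _ => ?_
    show |if i ∈ S then - p.val i b else p.val i b| = _
    split_ifs
    · exact abs_neg _
    · rfl)

lemma fl_val (S : Finset ℕ) (p : PT) (i : ℕ) (c : Fin (nn i + 1)) :
    (fl S p).val i c = if i ∈ S then - p.val i c else p.val i c := rfl

lemma flip_val' (k : ℕ) (p : PT) (i : ℕ) (c : Fin (nn i + 1)) :
    (flip k p).val i c = if i = k then - p.val i c else p.val i c := by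
  rw [flip_val, flp]
  by_cases h : i = k
  · subst h
    rw [Function.update_self, if_pos rfl]
    rfl
  · rw [Function.update_of_ne h, if_neg h]

lemma fl_flip (S : Finset ℕ) (k : ℕ) (p : PT) : fl S (flip k p) = fl (symmDiff S {k}) p := by
  apply PT_ext
  intro i c
  rw [fl_val, fl_val, flip_val']
  simp only [Finset.mem_symmDiff, Finset.mem_singleton]
  by_cases h1 : i ∈ S <;> by_cases h2 : i = k <;> simp [h1, h2]

lemma fl_empty (p : PT) : fl ∅ p = p := by
  apply PT_ext
  intro i c
  rw [fl_val, if_neg (Finset.notMem_empty i)]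

lemma fl_insert {S : Finset ℕ} {k : ℕ} (hk : k ∉ S) (p : PT) : fl (insert k S) p = flip k (fl S p) := by
  apply PT_ext
  intro i c
  rw [flip_val', fl_val, fl_val]
  by_cases h2 : i = k
  · subst h2
    simp [hk]
  · simp [h2]

/-- the sign of an index -/
def chi (S : Finset ℕ) (a : ℕ) : ℂ := ∏ k ∈ S, sk k a

lemma chi_sq (S : Finset ℕ) (a : ℕ) : chi S a * chi S a = 1 := by
  unfold chi
  rw [← Finset.prod_mul_distrib]
  exact Finset.prod_eq_one fun k _ => sk_sq k a

lemma chi_conj (S : Finset ℕ) (a : ℕ) : (starRingEnd ℂ) (chi S a) = chi S a := by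
  unfold chi
  rw [map_prod]
  exact Finset.prod_congr rfl fun k _ => conj_sk k a

lemma norm_chi (S : Finset ℕ) (a : ℕ) : ‖chi S a‖ = 1 := by
  unfold chi
  rw [norm_prod]
  exact Finset.prod_eq_one fun k _ => norm_sk k a

lemma chi_symm (S : Finset ℕ) (k a : ℕ) : chi (symmDiff S {k}) a = chi S a * sk k a := by
  unfold chi
  by_cases hk : k ∈ S
  · have h1 : symmDiff S {k} = S.erase k := by
      ext i
      simp only [Finset.mem_symmDiff, Finset.mem_singleton, Finset.mem_erase]
      by_cases h2 : i = k
      · subst h2; simp [hk]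
      · simp [h2]
    rw [h1, ← Finset.prod_erase_mul S _ hk, mul_assoc, sk_sq, mul_one]
  · have h1 : symmDiff S {k} = insert k S := by
      ext i
      simp only [Finset.mem_symmDiff, Finset.mem_singleton, Finset.mem_insert]
      by_cases h2 : i = k
      · subst h2; simp [hk]
      · simp [h2]
    rw [h1, Finset.prod_insert hk, mul_comm]

lemma chi_symm' (S : Finset ℕ) (k a : ℕ) : chi S a = chi (symmDiff S {k}) a * sk k a := by
  rw [chi_symm, mul_assoc, sk_sq, mul_one]

/-- entries at sign-changed points -/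
lemma en_fl {l : ℕ} {T : EE} (h : Lev l T) (a b : ℕ) (S : Finset ℕ) (p : PT) :
    en T a b (fl S p) = chi S a * chi S b * en T a b p := by
  induction S using Finset.induction_on with
  | empty => rw [fl_empty]; simp [chi]
  | insert k S hk ih =>
    rw [fl_insert hk, en_flip h, ih]
    unfold chi
    rw [Finset.prod_insert hk, Finset.prod_insert hk]
    ring

/-- the distance in the first `L` blocks -/
def dL (L : ℕ) (p p' : PT) : ℝ := ∑ i ∈ Finset.range L, ∑ c, |p.val i c - p'.val i c|

lemma dL_nonneg (L : ℕ) (p p' : PT) : 0 ≤ dL L p p' :=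
  Finset.sum_nonneg fun _ _ => Finset.sum_nonneg fun _ _ => abs_nonneg _

lemma dL_self (L : ℕ) (p : PT) : dL L p p = 0 := by
  unfold dL
  simp

lemma dL_comm (L : ℕ) (p p' : PT) : dL L p p' = dL L p' p := by
  unfold dL
  refine Finset.sum_congr rfl fun i _ => Finset.sum_congr rfl fun c _ => ?_
  exact abs_sub_comm _ _

lemma dL_tri (L : ℕ) (p p' p'' : PT) : dL L p p'' ≤ dL L p p' + dL L p' p'' := by
  unfold dL
  rw [← Finset.sum_add_distrib]
  refine Finset.sum_le_sum fun i _ => ?_
  rw [← Finset.sum_add_distrib]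
  exact Finset.sum_le_sum fun c _ => abs_sub_le _ _ _

lemma dL_mono {L L' : ℕ} (h : L ≤ L') (p p' : PT) : dL L p p' ≤ dL L' p p' := by
  unfold dL
  refine Finset.sum_le_sum_of_subset_of_nonneg ?_ ?_
  · intro i hi
    rw [Finset.mem_range] at *
    omega
  · intro i _ _
    exact Finset.sum_nonneg fun _ _ => abs_nonneg _

lemma dL_cont (L : ℕ) : Continuous fun x : PT × PT => dL L x.1 x.2 := by
  unfold dL
  refine continuous_finsetSum _ fun i _ => continuous_finsetSum _ fun c _ => ?_
  exact (((coord_continuous i c).comp continuous_fst).sub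
    ((coord_continuous i c).comp continuous_snd)).abs

lemma dL_fl_tail {L k : ℕ} (hk : L ≤ k) (S : Finset ℕ) (p p' : PT) :
    dL L (fl S (flip k p)) p' = dL L (fl S p) p' := by
  unfold dL
  refine Finset.sum_congr rfl fun i hi => Finset.sum_congr rfl fun c _ => ?_
  rw [Finset.mem_range] at hi
  have hik : i ≠ k := by omega
  rw [fl_val, fl_val, flip_val']
  simp only [if_neg hik]

/-- different sign changes have distance at least two -/
lemma dL_fl_ne {L : ℕ} {S S' : Finset ℕ} (hS : S ⊆ Finset.range L) (hS' : S' ⊆ Finset.range L)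
    (h : S ≠ S') (p : PT) : 2 ≤ dL L (fl S p) (fl S' p) := by
  obtain ⟨k, hk⟩ : ∃ k, ¬ (k ∈ S ↔ k ∈ S') := by
    by_contra hcon
    push Not at hcon
    exact h (Finset.ext hcon)
  have hkL : k ∈ Finset.range L := by
    by_cases h1 : k ∈ S
    · exact hS h1
    · by_cases h2 : k ∈ S'
      · exact hS' h2
      · exact absurd ⟨fun h => absurd h h1, fun h => absurd h h2⟩ hk
  have h3 : ∑ c, |(fl S p).val k c - (fl S' p).val k c| = 2 := by
    have h4 : ∑ b, |p.val k b| = 1 := p.prop k
    have h5 : ∀ c, |(fl S p).val k c - (fl S' p).val k c| = 2 * |p.val k c| := by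
      intro c
      rw [fl_val, fl_val]
      by_cases h1 : k ∈ S
      · have h2 : k ∉ S' := fun h2 => hk ⟨fun _ => h2, fun _ => h1⟩
        rw [if_pos h1, if_neg h2, show -p.val k c - p.val k c = -(2 * p.val k c) by ring, abs_neg,
          abs_mul, abs_two]
      · have h2 : k ∈ S' := by
          by_contra h2
          exact hk ⟨fun h => absurd h h1, fun h => absurd h h2⟩
        rw [if_neg h1, if_pos h2, show p.val k c - -p.val k c = 2 * p.val k c by ring,
          abs_mul, abs_two]
    simp only [h5]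
    rw [← Finset.mul_sum, h4, mul_one]
  unfold dL
  rw [← h3]
  exact Finset.single_le_sum (f := fun i => ∑ c, |(fl S p).val i c - (fl S' p).val i c|)
    (fun i _ => Finset.sum_nonneg fun _ _ => abs_nonneg _) hkL

/-- uniform continuity in terms of finitely many blocks -/
lemma unif {X : Type} [PseudoMetricSpace X] (Y : PT → X) (hY : Continuous Y) {δ : ℝ} (hδ : 0 < δ) :
    ∃ L0 : ℕ, ∀ L, L0 ≤ L → ∀ p p', dL L p p' ≤ 1 / (L + 1) → dist (Y p) (Y p') < δ := by
  let O : ℕ → Set (PT × PT) := fun L => {x | 1 / ((L : ℝ) + 1) < dL L x.1 x.2} ∪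
    {x | dist (Y x.1) (Y x.2) < δ}
  have hO : ∀ L, IsOpen (O L) := by
    intro L
    refine IsOpen.union (isOpen_lt continuous_const (dL_cont L)) (isOpen_lt ?_ continuous_const)
    exact (hY.comp continuous_fst).dist (hY.comp continuous_snd)
  have hmono : Monotone O := by
    intro L L' hL x hx
    rcases hx with hx | hx
    · left
      have h1 : 1 / ((L' : ℝ) + 1) ≤ 1 / ((L : ℝ) + 1) := by
        apply one_div_le_one_div_of_le (by positivity)
        have : (L : ℝ) ≤ L' := by exact_mod_cast hL
        linarith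
      exact lt_of_le_of_lt h1 (lt_of_lt_of_le hx (dL_mono hL _ _))
    · right; exact hx
  have hcov : (Set.univ : Set (PT × PT)) ⊆ ⋃ L, O L := by
    intro x _
    by_cases hx : x.1 = x.2
    · refine Set.mem_iUnion.2 ⟨0, Or.inr ?_⟩
      show dist (Y x.1) (Y x.2) < δ
      rw [hx, dist_self]
      exact hδ
    · have h1 : ∃ i c, x.1.val i c ≠ x.2.val i c := by
        by_contra hcon
        push Not at hcon
        exact hx (PT_ext hcon)
      obtain ⟨i, c, hic⟩ := h1
      have h2 : 0 < |x.1.val i c - x.2.val i c| := abs_pos.2 (sub_ne_zero.2 hic)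
      obtain ⟨n, hn⟩ := exists_nat_one_div_lt h2
      refine Set.mem_iUnion.2 ⟨max n (i + 1), Or.inl ?_⟩
      show 1 / (((max n (i + 1) : ℕ) : ℝ) + 1) < dL (max n (i + 1)) x.1 x.2
      have h3 : |x.1.val i c - x.2.val i c| ≤ dL (max n (i + 1)) x.1 x.2 := by
        unfold dL
        refine le_trans ?_ (Finset.single_le_sum (f := fun i => ∑ c, |x.1.val i c - x.2.val i c|)
          (fun i _ => Finset.sum_nonneg fun _ _ => abs_nonneg _)
          (Finset.mem_range.2 (lt_of_lt_of_le (Nat.lt_succ_self i) (le_max_right n (i + 1)))))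
        exact Finset.single_le_sum (f := fun c => |x.1.val i c - x.2.val i c|)
          (fun c _ => abs_nonneg _) (Finset.mem_univ c)
      have h4 : 1 / (((max n (i + 1) : ℕ) : ℝ) + 1) ≤ 1 / ((n : ℝ) + 1) := by
        apply one_div_le_one_div_of_le (by positivity)
        have : (n : ℝ) ≤ (max n (i + 1) : ℕ) := by exact_mod_cast le_max_left _ _
        linarith
      linarith
  obtain ⟨L0, hL0⟩ := isCompact_univ.elim_directed_cover O hO hcov (hmono.directed_le)
  refine ⟨L0, fun L hL p p' h => ?_⟩
  have h1 : (p, p') ∈ O L := hmono hL (hL0 (Set.mem_univ _))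
  rcases h1 with h1 | h1
  · exact absurd h (not_le.2 h1)
  · exact h1

end

end Q89.GN
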