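import Pool.Agent.Q89.GN.Cp

/-! The algebra of the self-similar functions is nuclear. -/

namespace Q89.GN

open scoped ENNReal InnerProductSpace Matrix.Norms.L2Operator ComplexOrder
open Pool.Agent.Y269.GP Pool.Agent.Helper133.BT Pool.Agent.Helper133.BU Filter Topology
open Pool.Agent.Helper234.Nuc (IsNuclear kr kr_apply)

noncomputable section

lemma fl_cont (S : Finset ℕ) : Continuous (fl S) := by
  have h1 : Continuous fun p : PT => (fun i c => if i ∈ S then - p.val i c else p.val i c : Om nn) := by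
    refine continuous_pi fun i => continuous_pi fun c => ?_
    by_cases h : i ∈ S
    · simp only [if_pos h]
      exact (coord_continuous i c).neg
    · simp only [if_neg h]
      exact coord_continuous i c
  exact Continuous.subtype_mk h1 _

section part

variable {J : Type} [Fintype J] (L : ℕ) (P : J → PT)

/-- the bumps -/
def bp (j : J) (p : PT) : ℝ := max 0 (1 / (L + 1) - dL L p (P j))

omit [Fintype J] in
lemma bp_nonneg (j : J) (p : PT) : 0 ≤ bp L P j p := le_max_left _ _

omit [Fintype J] in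
lemma bp_cont (j : J) : Continuous (bp L P j) := by
  unfold bp
  refine continuous_const.max (continuous_const.sub ?_)
  exact (dL_cont L).comp (continuous_id.prodMk continuous_const)

omit [Fintype J] in
lemma bp_pos {j : J} {p : PT} (h : bp L P j p ≠ 0) : dL L p (P j) < 1 / (L + 1) := by
  by_contra hcon
  apply h
  unfold bp
  rw [max_eq_left]
  linarith

/-- the subsets -/
abbrev pw (L : ℕ) : Finset (Finset ℕ) := (Finset.range L).powerset

/-- the normalisation -/
def Dn (p : PT) : ℝ := ∑ j, ∑ S ∈ pw L, bp L P j (fl S p)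

lemma Dn_nonneg (p : PT) : 0 ≤ Dn L P p :=
  Finset.sum_nonneg fun _ _ => Finset.sum_nonneg fun _ _ => bp_nonneg L P _ _

lemma Dn_cont : Continuous (Dn L P) := by
  unfold Dn
  exact continuous_finsetSum _ fun j _ => continuous_finsetSum _ fun S _ =>
    (bp_cont L P j).comp (fl_cont S)

lemma Dn_pos (hP : ∀ p, ∃ j, dL L p (P j) < 1 / (L + 1)) (p : PT) : 0 < Dn L P p := by
  obtain ⟨j, hj⟩ := hP p
  have h1 : 0 < bp L P j (fl ∅ p) := by
    rw [fl_empty]
    unfold bp
    exact lt_max_of_lt_right (by linarith)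
  unfold Dn
  refine lt_of_lt_of_le h1 ?_
  refine le_trans ?_ (Finset.single_le_sum (f := fun j => ∑ S ∈ pw L, bp L P j (fl S p))
    (fun i _ => Finset.sum_nonneg fun _ _ => bp_nonneg L P _ _) (Finset.mem_univ j))
  exact Finset.single_le_sum (f := fun S => bp L P j (fl S p))
    (fun i _ => bp_nonneg L P _ _) (Finset.mem_powerset.2 (Finset.empty_subset _))

/-- reindexing the sum over the subsets -/
lemma pw_sum {k : ℕ} (hk : k < L) {X : Type*} [AddCommMonoid X] (f : Finset ℕ → X) :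
    ∑ S ∈ pw L, f (symmDiff S {k}) = ∑ S ∈ pw L, f S := by
  refine Finset.sum_nbij' (fun S => symmDiff S {k}) (fun S => symmDiff S {k}) ?_ ?_ ?_ ?_ ?_
  · intro S hS
    rw [Finset.mem_powerset] at hS ⊢
    intro i hi
    rcases Finset.mem_symmDiff.1 hi with h | h
    · exact hS h.1
    · rw [Finset.mem_singleton.1 h.1]; exact Finset.mem_range.2 hk
  · intro S hS
    rw [Finset.mem_powerset] at hS ⊢
    intro i hi
    rcases Finset.mem_symmDiff.1 hi with h | h
    · exact hS h.1
    · rw [Finset.mem_singleton.1 h.1]; exact Finset.mem_range.2 hk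
  · intro S _
    exact symmDiff_symmDiff_cancel_right _ _
  · intro S _
    exact symmDiff_symmDiff_cancel_right _ _
  · intro S _
    rfl

omit [Fintype J] in
lemma bp_tail {k : ℕ} (hk : L ≤ k) (j : J) (S : Finset ℕ) (p : PT) :
    bp L P j (fl S (flip k p)) = bp L P j (fl S p) := by
  unfold bp
  rw [dL_fl_tail hk]

lemma Dn_flip (k : ℕ) (p : PT) : Dn L P (flip k p) = Dn L P p := by
  unfold Dn
  refine Finset.sum_congr rfl fun j _ => ?_
  by_cases hk : k < L
  · simp only [fl_flip]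
    exact pw_sum L hk fun S => bp L P j (fl S p)
  · exact Finset.sum_congr rfl fun S _ => bp_tail L P (not_lt.1 hk) j S p

/-- the square roots -/
def rt (j : J) (S : Finset ℕ) (p : PT) : ℝ := √(bp L P j (fl S p) / Dn L P p)

variable {L P}

/-- the functions with the parity of `a` -/
def ff (hP : ∀ p, ∃ j, dL L p (P j) < 1 / (L + 1)) (j : J) (a : ℕ) : C(PT, ℂ) :=
  ⟨fun p => ∑ S ∈ pw L, chi S a * ((rt L P j S p : ℝ) : ℂ), by
    refine continuous_finsetSum _ fun S _ => continuous_const.mul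
      (Complex.continuous_ofReal.comp ?_)
    unfold rt
    refine Real.continuous_sqrt.comp (((bp_cont L P j).comp (fl_cont S)).div (Dn_cont L P) ?_)
    exact fun p => (Dn_pos L P hP p).ne'⟩

variable (hP : ∀ p, ∃ j, dL L p (P j) < 1 / (L + 1))

lemma ff_apply (j : J) (a : ℕ) (p : PT) :
    ff hP j a p = ∑ S ∈ pw L, chi S a * ((rt L P j S p : ℝ) : ℂ) := rfl

lemma sk_one {L k a : ℕ} (hk : L ≤ k) (ha : a < 2 ^ L) : sk k a = 1 := by
  unfold sk
  exact if_neg (not_blk' hk ha)

lemma ff_flip (j : J) {a : ℕ} (ha : a < 2 ^ L) (k : ℕ) (p : PT) :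
    ff hP j a (flip k p) = sk k a * ff hP j a p := by
  rw [ff_apply, ff_apply, Finset.mul_sum]
  by_cases hk : k < L
  · have h1 : ∀ S, chi S a * ((rt L P j S (flip k p) : ℝ) : ℂ) =
        sk k a * (chi (symmDiff S {k}) a * ((rt L P j (symmDiff S {k}) p : ℝ) : ℂ)) := by
      intro S
      rw [chi_symm' S k a]
      unfold rt
      rw [fl_flip, Dn_flip]
      ring
    simp only [h1]
    exact pw_sum L hk fun S => sk k a * (chi S a * ((rt L P j S p : ℝ) : ℂ))
  · rw [sk_one (not_lt.1 hk) ha]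
    refine Finset.sum_congr rfl fun S _ => ?_
    unfold rt
    rw [bp_tail L P (not_lt.1 hk), Dn_flip, one_mul]

lemma rho_le : (1 : ℝ) / (L + 1) ≤ 1 := by
  rw [div_le_one (by positivity)]
  have : (0 : ℝ) ≤ L := Nat.cast_nonneg L
  linarith

omit [Fintype J] in
/-- disjointness -/
lemma bp_disj {j : J} {S S' : Finset ℕ} (hS : S ∈ pw L) (hS' : S' ∈ pw L) (h : S ≠ S') (p : PT) :
    bp L P j (fl S p) = 0 ∨ bp L P j (fl S' p) = 0 := by
  by_contra hcon
  push Not at hcon
  have h1 := bp_pos L P hcon.1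
  have h2 := bp_pos L P hcon.2
  have h3 := dL_fl_ne (Finset.mem_powerset.1 hS) (Finset.mem_powerset.1 hS') h p
  have h4 := dL_tri L (fl S p) (P j) (fl S' p)
  rw [dL_comm L (P j)] at h4
  have h5 := rho_le (L := L)
  linarith

lemma rt_disj {j : J} {S S' : Finset ℕ} (hS : S ∈ pw L) (hS' : S' ∈ pw L) (h : S ≠ S') (p : PT) :
    rt L P j S p * rt L P j S' p = 0 := by
  unfold rt
  rcases bp_disj hS hS' h p with h1 | h1
  · rw [h1, zero_div, Real.sqrt_zero, zero_mul]
  · rw [h1, zero_div, Real.sqrt_zero, mul_zero]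

lemma rt_sq (j : J) (S : Finset ℕ) (p : PT) :
    rt L P j S p * rt L P j S p = bp L P j (fl S p) / Dn L P p :=
  Real.mul_self_sqrt (div_nonneg (bp_nonneg L P _ _) (Dn_nonneg L P p))

lemma ff_mul (j : J) (a b : ℕ) (p : PT) :
    (starRingEnd ℂ) (ff hP j a p) * ff hP j b p =
      ∑ S ∈ pw L, chi S a * chi S b * ((bp L P j (fl S p) / Dn L P p : ℝ) : ℂ) := by
  rw [ff_apply, ff_apply, map_sum, Finset.sum_mul_sum]
  refine Finset.sum_congr rfl fun S hS => ?_
  rw [Finset.sum_eq_single S]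
  · rw [map_mul, chi_conj, Complex.conj_ofReal, ← rt_sq]
    push_cast
    ring
  · intro S' hS' hne
    rw [map_mul, chi_conj, Complex.conj_ofReal]
    have h1 := rt_disj (P := P) (j := j) hS hS' (fun h => hne h.symm) p
    have h2 : ((rt L P j S p : ℝ) : ℂ) * ((rt L P j S' p : ℝ) : ℂ) = 0 := by
      rw [← Complex.ofReal_mul, h1, Complex.ofReal_zero]
    linear_combination (chi S a * chi S' b) * h2
  · intro h; exact absurd hS h

include hP in
lemma sum_one (p : PT) : ∑ j, ∑ S ∈ pw L, (bp L P j (fl S p) / Dn L P p) = 1 := by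
  have h1 : ∀ j, ∑ S ∈ pw L, (bp L P j (fl S p) / Dn L P p) =
      (∑ S ∈ pw L, bp L P j (fl S p)) / Dn L P p := fun j => (Finset.sum_div _ _ _).symm
  simp only [h1]
  rw [← Finset.sum_div]
  exact div_self (Dn_pos L P hP p).ne'

end part

section Ambient

variable {E : Type} [CStarAlgebra E] (M : Amb E)
variable {J : Type} [Fintype J] [DecidableEq J] {L m : ℕ} {P : J → PT}
  (hP : ∀ p, ∃ j, dL L p (P j) < 1 / (L + 1))

omit [DecidableEq J] in
lemma KK_lev (hm : m ≤ L) (j : J) {a : ℕ} (ha : a < 2 ^ m) : Lev m (TC m (ff hP j a) 0 a) := by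
  refine TC_lev ha fun k p => ?_
  have h0 : sk k 0 = 1 := by unfold sk; exact if_neg (not_blk_zero k)
  rw [h0, one_mul]
  exact ff_flip hP j (lt_of_lt_of_le ha (Nat.pow_le_pow_right (by norm_num) hm)) k p

/-- the Kraus elements -/
def KK (hm : m ≤ L) (j : J) (a : Fin (2 ^ m)) : ↥(A1 M) :=
  ⟨M.ofC (TC m (ff hP j a) 0 a), mem_A1' (KK_lev hP hm j a.2)⟩

/-- the products of the functions -/
def hh (j : J) (a b : ℕ) : C(PT, ℂ) := star (ff hP j a) * ff hP j b

omit [DecidableEq J] in
lemma KK_mul (hm : m ≤ L) (j : J) (a b : Fin (2 ^ m)) :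
    ((star (KK M hP hm j a) * KK M hP hm j b : ↥(A1 M)) : E) = M.ofC (TC m (hh hP j a b) a b) := by
  have h0 : 0 < 2 ^ m := by positivity
  apply toC_inj M
  change M.toC (star (M.ofC (TC m (ff hP j a) 0 a)) * M.ofC (TC m (ff hP j b) 0 b)) = _
  rw [toC_mul, toC_star, toC_ofC, toC_ofC, toC_ofC, TC_star _ h0 a.2, TC_mul _ _ _ _ _ h0]
  rfl

/-- the Kraus family -/
def Kf (hm : m ≤ L) (q : J) (u : J × Fin (2 ^ m)) : ↥(A1 M) :=
  if u.1 = q then KK M hP hm u.1 u.2 else 0

lemma kr_Kf (hm : m ≤ L) (Z : Matrix (J × Fin (2 ^ m)) (J × Fin (2 ^ m)) ℂ) :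
    kr (Kf M hP hm) Z = ∑ j, ∑ a, ∑ b, Z (j, a) (j, b) •
      (star (KK M hP hm j a) * KK M hP hm j b) := by
  rw [kr_apply]
  refine Finset.sum_congr rfl fun j _ => ?_
  rw [Fintype.sum_prod_type, Finset.sum_eq_single j]
  · refine Finset.sum_congr rfl fun a _ => ?_
    rw [Fintype.sum_prod_type, Finset.sum_eq_single j]
    · refine Finset.sum_congr rfl fun b _ => ?_
      simp only [Kf, if_pos]
    · intro k _ hk
      refine Finset.sum_eq_zero fun b _ => ?_
      simp only [Kf, if_neg hk, mul_zero, smul_zero]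
    · intro h; exact absurd (Finset.mem_univ _) h
  · intro k _ hk
    refine Finset.sum_eq_zero fun a _ => ?_
    refine Finset.sum_eq_zero fun v _ => ?_
    simp only [Kf, if_neg hk, star_zero, zero_mul, smul_zero]
  · intro h; exact absurd (Finset.mem_univ _) h

/-- the image as a function -/
lemma kr_fun (hm : m ≤ L) (Z : Matrix (J × Fin (2 ^ m)) (J × Fin (2 ^ m)) ℂ)
    (g : ℕ → ℕ → C(PT, ℂ)) (hg : ∀ (a b : Fin (2 ^ m)) (p : PT), g a b p =
      ∑ j, Z (j, a) (j, b) * hh hP j a b p) :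
    ((kr (Kf M hP hm) Z : ↥(A1 M)) : E) = M.ofC (rec m g) := by
  have e0 : M.ofC (rec m g) = ofCl M (rec m g) := rfl
  have e2 : ∀ a b : Fin (2 ^ m), TCl m a b (g a b) =
      ∑ j, Z (j, a) (j, b) • TCl m a b (hh hP j a b) := by
    intro a b
    have e3 : g a b = ∑ j, Z (j, a) (j, b) • hh hP j a b := by
      ext1 p
      rw [hg, ContinuousMap.coe_sum, Finset.sum_apply]
      rfl
    rw [e3, map_sum]
    exact Finset.sum_congr rfl fun j _ => map_smul _ _ _
  rw [e0, rec_fin, map_sum, kr_Kf, AddSubmonoidClass.coe_finsetSum]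
  have e4 : ∀ j, ((∑ a, ∑ b, Z (j, a) (j, b) • (star (KK M hP hm j a) * KK M hP hm j b) :
      ↥(A1 M)) : E) = ∑ a : Fin (2 ^ m), ∑ b : Fin (2 ^ m),
        Z (j, a) (j, b) • ofCl M (TCl m a b (hh hP j a b)) := by
    intro j
    rw [AddSubmonoidClass.coe_finsetSum]
    refine Finset.sum_congr rfl fun a _ => ?_
    rw [AddSubmonoidClass.coe_finsetSum]
    refine Finset.sum_congr rfl fun b _ => ?_
    have h1 : ((Z (j, a) (j, b) • (star (KK M hP hm j a) * KK M hP hm j b) : ↥(A1 M)) : E) =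
      Z (j, a) (j, b) • ((star (KK M hP hm j a) * KK M hP hm j b : ↥(A1 M)) : E) := rfl
    rw [h1, KK_mul]
    rfl
  simp only [e4]
  rw [Finset.sum_comm]
  refine Finset.sum_congr rfl fun a _ => ?_
  rw [map_sum, Finset.sum_comm]
  refine Finset.sum_congr rfl fun b _ => ?_
  rw [e2, map_sum]
  exact Finset.sum_congr rfl fun j _ => (map_smul _ _ _).symm

omit [DecidableEq J] in
lemma hh_apply (j : J) (a b : ℕ) (p : PT) : hh hP j a b p =
    ∑ S ∈ pw L, chi S a * chi S b * ((bp L P j (fl S p) / Dn L P p : ℝ) : ℂ) :=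
  ff_mul hP j a b p

lemma kr_one (hm : m ≤ L) : kr (Kf M hP hm) 1 = 1 := by
  apply Subtype.ext
  rw [kr_fun M hP hm 1 (fun a b => if a = b then 1 else 0)]
  · have h1 : rec m (fun a b => if a = b then (1 : C(PT, ℂ)) else 0) = 1 := by
      rw [← sum_TC_one m]
      unfold rec
      refine Finset.sum_congr rfl fun a ha => ?_
      rw [Finset.sum_eq_single a]
      · simp only [if_pos]
      · intro b _ hb
        have hab : ¬ a = b := fun h => hb h.symm
        simp only [if_neg hab]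
        exact (TCl m a b).map_zero
      · intro h; exact absurd ha h
    rw [h1]
    apply toC_inj M
    rw [toC_ofC]
    exact (toC_one M).symm
  · intro a b p
    by_cases hab : a = b
    · subst hab
      simp only [if_pos, Matrix.one_apply_eq, one_mul, hh_apply, chi_sq]
      have h2 := sum_one hP p
      have h3 := congrArg (fun x : ℝ => (x : ℂ)) h2
      push_cast at h3
      push_cast
      exact h3.symm
    · have h1 : (a : ℕ) ≠ b := fun h => hab (Fin.ext h)
      simp only [if_neg h1]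
      rw [Finset.sum_eq_zero]
      · rfl
      · intro j _
        rw [Matrix.one_apply_ne, zero_mul]
        intro h
        exact hab (congrArg Prod.snd h)

/-- the compression as a linear map -/
def ph (P : J → PT) (m : ℕ) : ↥(A1 M) →ₗ[ℂ] Matrix (J × Fin (2 ^ m)) (J × Fin (2 ^ m)) ℂ where
  toFun x := cmp m (fun j => M.ev (P j) (x : E))
  map_add' x y := by
    ext u v
    rw [Matrix.add_apply, cmp_apply, cmp_apply, cmp_apply]
    by_cases h : u.1 = v.1
    · rw [if_pos h, if_pos h, if_pos h]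
      change M.ev (P u.1) ((x : E) + (y : E)) (ee v.2) u.2 = _
      rw [map_add]
      rfl
    · rw [if_neg h, if_neg h, if_neg h, add_zero]
  map_smul' c x := by
    ext u v
    rw [Matrix.smul_apply, cmp_apply, cmp_apply]
    by_cases h : u.1 = v.1
    · rw [if_pos h, if_pos h]
      change M.ev (P u.1) (c • (x : E)) (ee v.2) u.2 = _
      rw [map_smul]
      rfl
    · rw [if_neg h, if_neg h, smul_zero]

lemma ph_apply (P : J → PT) (m : ℕ) (x : ↥(A1 M)) :
    ph M P m x = cmp m (fun j => M.ev (P j) (x : E)) := rfl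

/-- the estimate for self-similar functions -/
lemma est (hm : m ≤ L) {y : ↥(A1 M)} (hy : Lev m (M.toC (y : E))) {δ : ℝ} (hδ : 0 ≤ δ)
    (hc : ∀ p p', dL L p p' ≤ 1 / (L + 1) → ∀ a < 2 ^ m, ∀ b < 2 ^ m,
      ‖en (M.toC (y : E)) a b p - en (M.toC (y : E)) a b p'‖ ≤ δ) :
    ‖kr (Kf M hP hm) (ph M P m y) - y‖ ≤ 2 ^ m * (2 ^ m * δ) := by
  set T : EE := M.toC (y : E) with hT
  let g : ℕ → ℕ → C(PT, ℂ) := fun a b => ∑ j, (en T a b (P j)) • hh hP j a b
  have h1 : ((kr (Kf M hP hm) (ph M P m y) : ↥(A1 M)) : E) = M.ofC (rec m g) := by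
    refine kr_fun M hP hm _ g fun a b p => ?_
    simp only [g]
    rw [ContinuousMap.coe_sum, Finset.sum_apply]
    refine Finset.sum_congr rfl fun j _ => ?_
    rw [ph_apply, cmp_apply, if_pos rfl]
    rfl
  have h2 : (y : E) = M.ofC (rec m (en T)) := by
    rw [← eq_rec hy, ofC_toC]
  have h3 : ((kr (Kf M hP hm) (ph M P m y) - y : ↥(A1 M)) : E) =
      M.ofC (rec m (fun a b => g a b - en T a b)) := by
    rw [← rec_sub]
    change ((kr (Kf M hP hm) (ph M P m y) : ↥(A1 M)) : E) - (y : E) = ofCl M _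
    rw [map_sub, h1]
    conv_lhs => rw [h2]
    rfl
  change ‖((kr (Kf M hP hm) (ph M P m y) - y : ↥(A1 M)) : E)‖ ≤ _
  rw [h3]
  refine norm_ofC_le M _ (by positivity) (norm_rec_le m _ ?_)
  intro a ha b hb p
  -- the pointwise estimate
  have h4 : g a b p = ∑ j, ∑ S ∈ pw L, ((bp L P j (fl S p) / Dn L P p : ℝ) : ℂ) *
      (chi S a * chi S b * en T a b (P j)) := by
    simp only [g]
    rw [ContinuousMap.coe_sum, Finset.sum_apply]
    refine Finset.sum_congr rfl fun j _ => ?_
    change en T a b (P j) * hh hP j a b p = _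
    rw [hh_apply, Finset.mul_sum]
    refine Finset.sum_congr rfl fun S _ => ?_
    ring
  have h5 : en T a b p = ∑ j, ∑ S ∈ pw L, ((bp L P j (fl S p) / Dn L P p : ℝ) : ℂ) *
      (chi S a * chi S b * en T a b (fl S p)) := by
    have e1 : ∀ S, chi S a * chi S b * en T a b (fl S p) = en T a b p := by
      intro S
      rw [en_fl hy]
      have c1 := chi_sq S a
      have c2 := chi_sq S b
      linear_combination (chi S b * chi S b * en T a b p) * c1 + (en T a b p) * c2
    simp only [e1]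
    simp only [← Finset.sum_mul]
    have h2 := sum_one hP p
    have h3 := congrArg (fun x : ℝ => (x : ℂ)) h2
    push_cast at h3
    push_cast
    rw [h3, one_mul]
  rw [ContinuousMap.sub_apply, h4, h5, ← Finset.sum_sub_distrib]
  simp only [← Finset.sum_sub_distrib, ← mul_sub]
  calc _ ≤ ∑ j, ‖∑ S ∈ pw L, ((bp L P j (fl S p) / Dn L P p : ℝ) : ℂ) *
        (chi S a * chi S b * (en T a b (P j) - en T a b (fl S p)))‖ := norm_sum_le _ _
    _ ≤ ∑ j, ∑ S ∈ pw L, (bp L P j (fl S p) / Dn L P p) * δ := by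
        refine Finset.sum_le_sum fun j _ => (norm_sum_le _ _).trans
          (Finset.sum_le_sum fun S _ => ?_)
        rw [norm_mul, norm_mul, norm_mul, norm_chi, norm_chi, Complex.norm_real, one_mul, one_mul,
          Real.norm_of_nonneg (div_nonneg (bp_nonneg L P _ _) (Dn_nonneg L P p))]
        by_cases h0 : bp L P j (fl S p) = 0
        · rw [h0, zero_div, zero_mul, zero_mul]
        · refine mul_le_mul_of_nonneg_left ?_ (div_nonneg (bp_nonneg L P _ _) (Dn_nonneg L P p))
          have h6 := bp_pos L P h0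
          rw [dL_comm] at h6
          exact hc _ _ h6.le a ha b hb
    _ = δ := by
        simp only [← Finset.sum_mul]
        rw [sum_one hP p, one_mul]

end Ambient

/-- nets -/
lemma exists_net (L : ℕ) : ∃ (N : ℕ) (P : Fin N → PT), ∀ p, ∃ j, dL L p (P j) < 1 / (L + 1) := by
  have h1 : ∀ p : PT, IsOpen {p' : PT | dL L p' p < 1 / (L + 1)} := fun p =>
    isOpen_lt ((dL_cont L).comp (continuous_id.prodMk continuous_const)) continuous_const
  obtain ⟨t, ht⟩ := isCompact_univ.elim_finite_subcover (fun p : PT => {p' : PT | dL L p' p <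
    1 / (L + 1)}) h1 (by
      intro p _
      refine Set.mem_iUnion.2 ⟨p, ?_⟩
      show dL L p p < 1 / ((L : ℝ) + 1)
      rw [dL_self]
      positivity)
  refine ⟨t.card, fun i => (t.equivFin.symm i : PT), fun p => ?_⟩
  have h2 := ht (Set.mem_univ p)
  simp only [Set.mem_iUnion] at h2
  obtain ⟨q, hq, h3⟩ := h2
  refine ⟨t.equivFin ⟨q, hq⟩, ?_⟩
  change dL L p (t.equivFin.symm (t.equivFin ⟨q, hq⟩) : PT) < _
  rw [Equiv.symm_apply_apply]
  exact h3

/-- **Nuclearity.** -/
theorem nuclB {E : Type} [CStarAlgebra E] (M : Amb E) : IsNuclear ↥(A1 M) := by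
  classical
  refine nuc_of fun F ε hε => ?_
  -- approximants
  have h1 : ∀ a : ↥(A1 M), ∃ (l : ℕ) (y : ↥(A1 M)), Lev l (M.toC (y : E)) ∧ ‖a - y‖ < ε / 3 := by
    intro a
    obtain ⟨l, y, hl, hy⟩ := A1_approx a.2 (show 0 < ε / 3 by positivity)
    exact ⟨l, ⟨y, mem_A1 hl⟩, hl, hy⟩
  choose l y hl hy using h1
  set m := F.sup l with hm
  have hlm : ∀ a ∈ F, Lev m (M.toC (y a : E)) := fun a ha => (hl a).mono (Finset.le_sup ha)
  -- uniform continuity
  set δ : ℝ := ε / (4 * (2 ^ m * 2 ^ m)) with hδd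
  have hδ : 0 < δ := by positivity
  let Y : PT → (F → Fin (2 ^ m) → Fin (2 ^ m) → ℂ) := fun p a i j => en (M.toC (y a : E)) i j p
  have hY : Continuous Y := by
    refine continuous_pi fun a => continuous_pi fun i => continuous_pi fun j => ?_
    exact (en (M.toC (y a : E)) i j).continuous
  obtain ⟨L0, hL0⟩ := unif Y hY hδ
  set L := max L0 m with hL
  obtain ⟨N, P, hP⟩ := exists_net L
  have hmL : m ≤ L := le_max_right _ _
  have hK : ‖kr (Kf M hP hmL) 1‖ ≤ 1 := by
    rw [kr_one]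
    rcases subsingleton_or_nontrivial ↥(A1 M) with hA | hA
    · rw [Subsingleton.elim (1 : ↥(A1 M)) 0, norm_zero]; exact zero_le_one
    · rw [CStarRing.norm_one]
  have hcontr : ∀ a : ↥(A1 M), ‖a‖ ≤ 1 → (1 - star (ph M P m a) * ph M P m a).PosSemidef := by
    intro a ha
    rw [ph_apply]
    exact cmp_contr m _ fun j => (ev_norm_le M (a : E) (P j)).trans ha
  refine ⟨Fin N × Fin (2 ^ m), Fin N, inferInstance, inferInstance, inferInstance, ph M P m,
    Kf M hP hmL, ?_, hcontr, hK, ?_⟩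
  · intro n x
    have h2 := cmp_cp m (fun (i : Fin n) (j : Fin N) => M.ev (P j) (x i : E))
    have h3 : (fun p q : Fin n × (Fin N × Fin (2 ^ m)) =>
        ph M P m (star (x p.1) * x q.1) p.2 q.2) = (fun p q : Fin n × (Fin N × Fin (2 ^ m)) =>
      cmp m (fun j => star (M.ev (P j) (x p.1 : E)) * M.ev (P j) (x q.1 : E)) p.2 q.2) := by
      funext p q
      rw [ph_apply]
      congr 2
      funext j
      change M.ev (P j) (star (x p.1 : E) * (x q.1 : E)) = _
      rw [map_mul, map_star]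
    rw [h3]
    exact h2
  · intro a ha
    have e1 : kr (Kf M hP hmL) (ph M P m a) - a =
        kr (Kf M hP hmL) (ph M P m (a - y a)) +
          (kr (Kf M hP hmL) (ph M P m (y a)) - y a) - (a - y a) := by
      rw [map_sub, map_sub]; abel
    rw [e1]
    have e2 : ‖kr (Kf M hP hmL) (ph M P m (a - y a))‖ < ε / 3 :=
      (kr_phi_le _ _ hcontr hK _).trans_lt (hy a)
    have e3 : ‖kr (Kf M hP hmL) (ph M P m (y a)) - y a‖ ≤ 2 ^ m * (2 ^ m * δ) := by
      refine est M hP hmL (hlm a ha) hδ.le ?_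
      intro p p' hpp i hi j hj
      have h4 := hL0 L (le_max_left _ _) p p' hpp
      rw [dist_eq_norm] at h4
      have h5 := (norm_le_pi_norm (Y p - Y p') ⟨a, ha⟩).trans h4.le
      have h6 := (norm_le_pi_norm ((Y p - Y p') ⟨a, ha⟩) ⟨i, hi⟩).trans h5
      have h7 := (norm_le_pi_norm ((Y p - Y p') ⟨a, ha⟩ ⟨i, hi⟩) ⟨j, hj⟩).trans h6
      exact h7
    have e4 : (2 : ℝ) ^ m * (2 ^ m * δ) = ε / 4 := by
      rw [hδd]
      field_simp
    rw [e4] at e3
    calc _ ≤ ‖kr (Kf M hP hmL) (ph M P m (a - y a)) +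
          (kr (Kf M hP hmL) (ph M P m (y a)) - y a)‖ + ‖a - y a‖ := norm_sub_le _ _
      _ ≤ ‖kr (Kf M hP hmL) (ph M P m (a - y a))‖ +
          ‖kr (Kf M hP hmL) (ph M P m (y a)) - y a‖ + ‖a - y a‖ := by
          gcongr; exact norm_add_le _ _
      _ < ε / 3 + ε / 4 + ε / 3 := by
          have := hy a
          linarith
      _ < ε := by linarith

end

end Q89.GN
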