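import Mathlib
import Pool.Agent.Y269.GP.Simple

/-! Finitely generated subalgebras of the algebra of `Pool.Agent.Y269.GP` have finite-dimensional
representations. -/

namespace Q89.GN

open scoped ENNReal
open Pool.Agent.Y269.GP Filter Topology

noncomputable section

/-- the compression to the first `2 ^ N` basis vectors, as a matrix -/
def mat (N : ℕ) (T : HH →L[ℂ] HH) : Matrix (Fin (2 ^ N)) (Fin (2 ^ N)) ℂ :=
  fun i j => T (ee j) i

lemma expand (N : ℕ) {S : HH →L[ℂ] HH} (hS : S * PR N = PR N * S) (j : Fin (2 ^ N)) :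
    S (ee j) = ∑ k : Fin (2 ^ N), S (ee j) k • ee (k : ℕ) := by
  have h1 : S (ee j) = PR N (S (ee j)) := by
    have h := congrArg (fun A : HH →L[ℂ] HH => A (ee j)) hS
    simp only [mulA] at h
    rw [PR_ee, if_pos j.2, one_smul] at h
    exact h
  have h2 : ∀ f : HH, PR N f = ∑ k : Fin (2 ^ N), f k • ee (k : ℕ) := by
    intro f
    refine lp.ext (funext fun i => ?_)
    have e : (∑ k : Fin (2 ^ N), f k • ee (k : ℕ) : HH) i
        = ∑ k : Fin (2 ^ N), (f k • ee (k : ℕ) : HH) i := by
      rw [lp.coeFn_sum, Finset.sum_apply]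
    rw [PR_apply, e]
    by_cases hi : i < 2 ^ N
    · rw [if_pos hi, one_mul, Finset.sum_eq_single (⟨i, hi⟩ : Fin (2 ^ N))]
      · rw [lp.coeFn_smul, Pi.smul_apply, ee_apply, if_pos rfl, smul_eq_mul, mul_one]
      · intro b _ hb
        rw [lp.coeFn_smul, Pi.smul_apply, ee_apply, if_neg, smul_zero]
        intro h
        exact hb (Fin.ext h.symm)
      · intro h
        exact absurd (Finset.mem_univ _) h
    · rw [if_neg hi, zero_mul]
      symm
      apply Finset.sum_eq_zero
      intro b _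
      rw [lp.coeFn_smul, Pi.smul_apply, ee_apply, if_neg, smul_zero]
      intro h
      exact hi (h ▸ b.2)
  nth_rewrite 1 [h1]
  exact h2 _

lemma mat_mul (N : ℕ) {T S : HH →L[ℂ] HH} (hS : S * PR N = PR N * S) :
    mat N (T * S) = mat N T * mat N S := by
  ext i j
  rw [Matrix.mul_apply]
  show (T * S) (ee j) i = ∑ k : Fin (2 ^ N), T (ee (k : ℕ)) i * S (ee j) k
  rw [mulA, expand N hS j, map_sum, lp.coeFn_sum, Finset.sum_apply]
  refine Finset.sum_congr rfl fun k _ => ?_
  rw [map_smul, lp.coeFn_smul, Pi.smul_apply, smul_eq_mul, mul_comm]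
  congr 1
  rw [← expand N hS j]

lemma mat_star (N : ℕ) (T : HH →L[ℂ] HH) : mat N (star T) = star (mat N T) := by
  ext i j
  rw [Matrix.star_apply]
  show (star T) (ee j) i = star (T (ee i) j)
  rw [← inner_ee i, ← inner_ee j, ContinuousLinearMap.star_eq_adjoint,
    ContinuousLinearMap.adjoint_inner_right]
  exact (inner_conj_symm _ _).symm

section Ambient

variable {E : Type} [CStarAlgebra E] (M : Amb E)

/-- the elements which are reduced by the first `2 ^ N` basis vectors at the point `p` -/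
def red (N : ℕ) (p : PT) : StarSubalgebra ℂ ↥(A0 M) where
  carrier := {z | M.ev p (z : E) * PR N = PR N * M.ev p (z : E)}
  mul_mem' := by
    intro x y hx hy
    have hx' : M.ev p (x : E) * PR N = PR N * M.ev p (x : E) := hx
    have hy' : M.ev p (y : E) * PR N = PR N * M.ev p (y : E) := hy
    show M.ev p ((x : E) * (y : E)) * PR N = PR N * M.ev p ((x : E) * (y : E))
    rw [map_mul, mul_assoc, hy', ← mul_assoc, hx', mul_assoc]
  add_mem' := by
    intro x y hx hy
    have hx' : M.ev p (x : E) * PR N = PR N * M.ev p (x : E) := hx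
    have hy' : M.ev p (y : E) * PR N = PR N * M.ev p (y : E) := hy
    show M.ev p ((x : E) + (y : E)) * PR N = PR N * M.ev p ((x : E) + (y : E))
    rw [map_add, add_mul, mul_add, hx', hy']
  algebraMap_mem' := by
    intro r
    show M.ev p (algebraMap ℂ E r) * PR N = PR N * M.ev p (algebraMap ℂ E r)
    rw [AlgHomClass.commutes]
    exact Algebra.commutes r (PR N)
  star_mem' := by
    intro x hx
    have h1 : M.ev p (x : E) * PR N = PR N * M.ev p (x : E) := hx
    have h2 := congrArg star h1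
    rw [star_mul, star_mul, PR_star] at h2
    show M.ev p (star (x : E)) * PR N = PR N * M.ev p (star (x : E))
    rw [map_star]
    exact h2.symm

lemma red_closed (N : ℕ) (p : PT) : IsClosed (red M N p : Set ↥(A0 M)) := by
  have h1 : Continuous fun z : ↥(A0 M) => M.ev p (z : E) :=
    (AddMonoidHomClass.continuous_of_bound (M.ev p) 1 (fun x => by
      rw [one_mul]; exact ev_norm_le M x p)).comp continuous_subtype_val
  exact isClosed_eq (h1.mul continuous_const) (continuous_const.mul h1)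

/-- the representation of the reduced elements by matrices -/
def rep (N : ℕ) (p : PT) : ↥(red M N p) →⋆ₐ[ℂ] Matrix (Fin (2 ^ N)) (Fin (2 ^ N)) ℂ where
  toFun z := mat N (M.ev p ((z : ↥(A0 M)) : E))
  map_one' := by
    show mat N (M.ev p (1 : E)) = 1
    rw [map_one]
    ext i j
    show (1 : HH →L[ℂ] HH) (ee j) i = _
    rw [oneA, ee_apply, Matrix.one_apply]
    simp only [Fin.ext_iff]
  map_mul' x y := by
    show mat N (M.ev p (((x : ↥(A0 M)) : E) * ((y : ↥(A0 M)) : E))) = _
    rw [map_mul]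
    exact mat_mul N y.2
  map_zero' := by
    show mat N (M.ev p (0 : E)) = 0
    rw [map_zero]
    rfl
  map_add' x y := by
    show mat N (M.ev p (((x : ↥(A0 M)) : E) + ((y : ↥(A0 M)) : E))) = _
    rw [map_add]
    rfl
  commutes' r := by
    show mat N (M.ev p (algebraMap ℂ E r)) = _
    rw [AlgHomClass.commutes, Algebra.algebraMap_eq_smul_one, Algebra.algebraMap_eq_smul_one]
    ext i j
    show (r • (1 : HH →L[ℂ] HH)) (ee j) i = _
    rw [smul_apply, oneA, lp.coeFn_smul, Pi.smul_apply, ee_apply, Matrix.smul_apply,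
      Matrix.one_apply]
    simp only [Fin.ext_iff]
  map_star' x := by
    show mat N (M.ev p (star ((x : ↥(A0 M)) : E))) = _
    rw [map_star]
    exact mat_star N _

theorem exists_red (F : Set ↥(A0 M)) (hF : F.Finite) :
    ∃ (N : ℕ) (p : PT), (StarAlgebra.adjoin ℂ F).topologicalClosure ≤ red M N p := by
  obtain ⟨N, f, -, hf⟩ := hF.fin_param
  let x : ℕ → ↥(A0 M) := fun j => if h : j < N then f ⟨j, h⟩ else 0
  obtain ⟨p, hp⟩ := exists_comm_limit (N := N) (fun j => M.toC (x j : E)) (by
    intro j ε hε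
    obtain ⟨l, y, -, hl, hy⟩ := A0_approx M (x j).2 hε
    exact ⟨l, M.toC y, hl, (norm_toC_sub_le M _ _).trans hy⟩)
  refine ⟨N, p, StarSubalgebra.topologicalClosure_minimal ?_ (red_closed M N p)⟩
  refine StarAlgebra.adjoin_le ?_
  intro y hy
  rw [← hf] at hy
  obtain ⟨⟨j, hj⟩, rfl⟩ := hy
  have := hp j hj
  simp only [x, dif_pos hj] at this
  exact this

theorem exists_rep (F : Set ↥(A0 M)) (hF : F.Finite) :
    ∃ n : ℕ, 0 < n ∧ Nonempty (↥((StarAlgebra.adjoin ℂ F).topologicalClosure) →⋆ₐ[ℂ]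
      Matrix (Fin n) (Fin n) ℂ) := by
  obtain ⟨N, p, h⟩ := exists_red M F hF
  exact ⟨2 ^ N, by positivity, ⟨(rep M N p).comp (StarSubalgebra.inclusion h)⟩⟩

end Ambient

/-- a simple algebra which is not finitely generated has no finite-dimensional representation -/
theorem no_rep {A : Type*} [CStarAlgebra A] (hs : IsSimpleRing A)
    (h : ∀ F : Set A, F.Finite → (StarAlgebra.adjoin ℂ F).topologicalClosure ≠ ⊤) (n : ℕ)
    (hn : 0 < n) : IsEmpty (A →⋆ₐ[ℂ] Matrix (Fin n) (Fin n) ℂ) := by
  refine ⟨fun π => ?_⟩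
  have : Nonempty (Fin n) := ⟨⟨0, hn⟩⟩
  have hinj : Function.Injective (π : A →ₗ[ℂ] Matrix (Fin n) (Fin n) ℂ) :=
    RingHom.injective (π : A →+* Matrix (Fin n) (Fin n) ℂ)
  have hfd : FiniteDimensional ℂ A := FiniteDimensional.of_injective _ hinj
  obtain ⟨s, hs⟩ := (Module.finite_def.mp hfd)
  apply h (s : Set A) s.finite_toSet
  rw [eq_top_iff]
  intro x _
  apply StarSubalgebra.le_topologicalClosure
  have h1 : x ∈ Submodule.span ℂ (s : Set A) := by rw [hs]; exact Submodule.mem_top
  have h2 : Submodule.span ℂ (s : Set A) ≤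
      Subalgebra.toSubmodule (StarAlgebra.adjoin ℂ (s : Set A)).toSubalgebra :=
    Submodule.span_le.mpr (StarAlgebra.subset_adjoin ℂ (s : Set A))
  exact h2 h1

/-- a set which generates without the unit generates with the unit -/
theorem gen_of_nonunital {A : Type*} [CStarAlgebra A] {F : Set A}
    (h : (NonUnitalStarAlgebra.adjoin ℂ F).topologicalClosure = ⊤) :
    (StarAlgebra.adjoin ℂ F).topologicalClosure = ⊤ := by
  rw [eq_top_iff]
  intro x _
  have h1 : x ∈ (NonUnitalStarAlgebra.adjoin ℂ F).topologicalClosure := by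
    rw [h]; exact NonUnitalStarAlgebra.mem_top
  have h2 : x ∈ closure ((NonUnitalStarAlgebra.adjoin ℂ F : NonUnitalStarSubalgebra ℂ A) : Set A) :=
    h1
  have h3 : ((NonUnitalStarAlgebra.adjoin ℂ F : NonUnitalStarSubalgebra ℂ A) : Set A) ⊆
      ((StarAlgebra.adjoin ℂ F : StarSubalgebra ℂ A) : Set A) := by
    have : NonUnitalStarAlgebra.adjoin ℂ F ≤
        (StarAlgebra.adjoin ℂ F).toNonUnitalStarSubalgebra :=
      NonUnitalStarAlgebra.adjoin_le (StarAlgebra.subset_adjoin ℂ F)
    exact this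
  exact closure_mono h3 h2

/-- the algebra -/
theorem final : ∃ (A : Type) (_ : CStarAlgebra A),
    TopologicalSpace.SeparableSpace A ∧ IsSimpleRing A ∧
    (∀ F : Set A, F.Finite → (StarAlgebra.adjoin ℂ F).topologicalClosure ≠ ⊤) ∧
    (∀ F : Set A, F.Finite → ∃ n : ℕ, 0 < n ∧
      Nonempty (↥((StarAlgebra.adjoin ℂ F).topologicalClosure) →⋆ₐ[ℂ]
        Matrix (Fin n) (Fin n) ℂ)) :=
  ⟨↥(A0 amb), inferInstance, separable amb, simple amb, not_finitely_generated amb,
    exists_rep amb⟩

end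

end Q89.GN
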